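import Pool.Agent.Q54.HD.Defs

/-!
# The equations of the example
-/

set_option autoImplicit false

namespace Q54.HD

/-- The sequence `g = (x_0 y_0 + x_1 y_1 + x_2 y_2, z x_0, z x_1, z x_2)` of elements of
`k[[y_0, y_1, y_2, x_0, x_1, x_2, z]]`; the seven variables are `X 0, ..., X 6` in this order. -/
noncomputable def geqs (k : Type) [Field k] : Fin 4 → MvPowerSeries (Fin 7) k :=
  ![MvPowerSeries.X 3 * MvPowerSeries.X 0 + MvPowerSeries.X 4 * MvPowerSeries.X 1 +
      MvPowerSeries.X 5 * MvPowerSeries.X 2, MvPowerSeries.X 6 * MvPowerSeries.X 3,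
      MvPowerSeries.X 6 * MvPowerSeries.X 4, MvPowerSeries.X 6 * MvPowerSeries.X 5]

end Q54.HD
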