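import Pool.Agent.Q54.HD.Core
import Pool.Agent.Q54.HD.Eqs

/-!
# The cochain
-/

set_option autoImplicit false
set_option linter.unusedSimpArgs false
set_option linter.unusedSectionVars false

open MvPowerSeries

namespace Q54.HD

section

variable {k : Type} [Field k] {K : Type} [Field K] [Algebra (MvPowerSeries (Fin 7) k) K]
  [IsFractionRing (MvPowerSeries (Fin 7) k) K]

/-- The coefficients of the cochain at `dx_0 dx_1 dx_2 dz`. -/
noncomputable def al3 (k : Type) [Field k] (K : Type) [Field K]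
    [Algebra (MvPowerSeries (Fin 7) k) K] (S : Finset (Fin 4)) : K :=
  if S = {1, 2, 3} then ia k K 1 / ia k K (X 3 * X 4 * X 5 * X 6) else
  if S = {0, 2, 3} then ia k K (X 0) / ia k K (qf k * X 6 * X 4 * X 5) else
  if S = {0, 1, 3} then -(ia k K (X 1) / ia k K (qf k * X 6 * X 3 * X 5)) else
  if S = {0, 1, 2} then ia k K (X 2) / ia k K (qf k * X 6 * X 3 * X 4) else 0

/-- The coefficients of the cochain at `dy_0 dx_0 dx_1 dx_2 dz`. -/
noncomputable def be0 (k : Type) [Field k] (K : Type) [Field K]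
    [Algebra (MvPowerSeries (Fin 7) k) K] (S : Finset (Fin 4)) : K :=
  if S = {0, 2} then ia k K (X 2) / ia k K (qf k ^ 2 * X 6 * X 4) else
  if S = {0, 3} then -(ia k K (X 1) / ia k K (qf k ^ 2 * X 6 * X 5)) else 0

/-- The coefficients of the cochain at `dy_1 dx_0 dx_1 dx_2 dz`. -/
noncomputable def be1 (k : Type) [Field k] (K : Type) [Field K]
    [Algebra (MvPowerSeries (Fin 7) k) K] (S : Finset (Fin 4)) : K :=
  if S = {0, 1} then -(ia k K (X 2) / ia k K (qf k ^ 2 * X 6 * X 3)) else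
  if S = {0, 3} then ia k K (X 0) / ia k K (qf k ^ 2 * X 6 * X 5) else 0

/-- The coefficients of the cochain at `dy_2 dx_0 dx_1 dx_2 dz`. -/
noncomputable def be2 (k : Type) [Field k] (K : Type) [Field K]
    [Algebra (MvPowerSeries (Fin 7) k) K] (S : Finset (Fin 4)) : K :=
  if S = {0, 1} then ia k K (X 1) / ia k K (qf k ^ 2 * X 6 * X 3) else
  if S = {0, 2} then -(ia k K (X 0) / ia k K (qf k ^ 2 * X 6 * X 4)) else 0

/-- The cochain. -/
noncomputable def alpha (k : Type) [Field k] (K : Type) [Field K]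
    [Algebra (MvPowerSeries (Fin 7) k) K] : Finset (Fin 4) → Finset (Fin 7) → K := fun S J =>
  if J = {3, 4, 5, 6} then al3 k K S else
  if J = {0, 3, 4, 5, 6} then be0 k K S else
  if J = {1, 3, 4, 5, 6} then be1 k K S else
  if J = {2, 3, 4, 5, 6} then be2 k K S else 0

theorem sgn_eq_ite {N : ℕ} (i : Fin N) (S : Finset (Fin N)) :
    sgn i S = if (S.filter (· < i)).card % 2 = 0 then 1 else -1 := by
  rw [sgn]
  split_ifs with h
  · exact Even.neg_one_pow (Nat.even_iff.2 h)
  · exact Odd.neg_one_pow (Nat.odd_iff.2 (by omega))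

theorem sum4 (S : Finset (Fin 4)) (F : Fin 4 → K) :
    ∑ i ∈ S, F i = (if 0 ∈ S then F 0 else 0) + (if 1 ∈ S then F 1 else 0) +
      (if 2 ∈ S then F 2 else 0) + (if 3 ∈ S then F 3 else 0) := by
  rw [← Fin.sum_univ_four (fun i => if i ∈ S then F i else 0), Finset.sum_ite_mem,
    Finset.univ_inter]

theorem sum7 (S : Finset (Fin 7)) (F : Fin 7 → K) :
    ∑ i ∈ S, F i = (if 0 ∈ S then F 0 else 0) + (if 1 ∈ S then F 1 else 0) +
      (if 2 ∈ S then F 2 else 0) + (if 3 ∈ S then F 3 else 0) + (if 4 ∈ S then F 4 else 0) +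
      (if 5 ∈ S then F 5 else 0) + (if 6 ∈ S then F 6 else 0) := by
  rw [← Fin.sum_univ_seven (fun i => if i ∈ S then F i else 0), Finset.sum_ite_mem,
    Finset.univ_inter]

theorem prod_geqs (S : Finset (Fin 4)) :
    ∏ i ∈ S, geqs k i = (if 0 ∈ S then qf k else 1) * (if 1 ∈ S then X 6 * X 3 else 1) *
      (if 2 ∈ S then X 6 * X 4 else 1) * (if 3 ∈ S then X 6 * X 5 else 1) := by
  have : ∏ i ∈ S, geqs k i = ∏ i : Fin 4, if i ∈ S then geqs k i else 1 := by
    rw [Finset.prod_ite_mem, Finset.univ_inter]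
  rw [this, Fin.prod_univ_four]
  rfl

theorem X_ne_zero' (j : Fin 7) : (X j : MvPowerSeries (Fin 7) k) ≠ 0 := (X_prime j).ne_zero

theorem al3_mem (S : Finset (Fin 4)) : al3 k K S ∈ locS K (geqs k) S := by
  have hf := qf_ne_zero (k := k)
  have hx := X_ne_zero' (k := k)
  rw [al3]
  split_ifs with h1 h2 h3 h4
  · subst h1
    rw [locS, prod_geqs]
    simp (decide := true) only [if_true, if_false, one_mul, mul_one]
    refine loc_div _ _ _ 1 ?_ ⟨X 6 * X 6, by ring⟩
    exact mul_ne_zero (mul_ne_zero (mul_ne_zero (hx _) (hx _)) (hx _)) (hx _)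
  · subst h2
    rw [locS, prod_geqs]
    simp (decide := true) only [if_true, if_false, one_mul, mul_one]
    refine loc_div _ _ _ 1 ?_ ⟨X 6, by ring⟩
    exact mul_ne_zero (mul_ne_zero (mul_ne_zero hf (hx _)) (hx _)) (hx _)
  · subst h3
    rw [locS, prod_geqs]
    simp (decide := true) only [if_true, if_false, one_mul, mul_one]
    refine neg_mem (loc_div _ _ _ 1 ?_ ⟨X 6, by ring⟩)
    exact mul_ne_zero (mul_ne_zero (mul_ne_zero hf (hx _)) (hx _)) (hx _)
  · subst h4
    rw [locS, prod_geqs]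
    simp (decide := true) only [if_true, if_false, one_mul, mul_one]
    refine loc_div _ _ _ 1 ?_ ⟨X 6, by ring⟩
    exact mul_ne_zero (mul_ne_zero (mul_ne_zero hf (hx _)) (hx _)) (hx _)
  · exact zero_mem _

theorem be0_mem (S : Finset (Fin 4)) : be0 k K S ∈ locS K (geqs k) S := by
  have hf := qf_ne_zero (k := k)
  have hx := X_ne_zero' (k := k)
  rw [be0]
  split_ifs with h1 h2
  · subst h1
    rw [locS, prod_geqs]
    simp (decide := true) only [if_true, if_false, one_mul, mul_one]
    refine loc_div _ _ _ 2 ?_ ⟨X 6 * X 4, by ring⟩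
    exact mul_ne_zero (mul_ne_zero (pow_ne_zero 2 hf) (hx _)) (hx _)
  · subst h2
    rw [locS, prod_geqs]
    simp (decide := true) only [if_true, if_false, one_mul, mul_one]
    refine neg_mem (loc_div _ _ _ 2 ?_ ⟨X 6 * X 5, by ring⟩)
    exact mul_ne_zero (mul_ne_zero (pow_ne_zero 2 hf) (hx _)) (hx _)
  · exact zero_mem _

theorem be1_mem (S : Finset (Fin 4)) : be1 k K S ∈ locS K (geqs k) S := by
  have hf := qf_ne_zero (k := k)
  have hx := X_ne_zero' (k := k)
  rw [be1]
  split_ifs with h1 h2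
  · subst h1
    rw [locS, prod_geqs]
    simp (decide := true) only [if_true, if_false, one_mul, mul_one]
    refine neg_mem (loc_div _ _ _ 2 ?_ ⟨X 6 * X 3, by ring⟩)
    exact mul_ne_zero (mul_ne_zero (pow_ne_zero 2 hf) (hx _)) (hx _)
  · subst h2
    rw [locS, prod_geqs]
    simp (decide := true) only [if_true, if_false, one_mul, mul_one]
    refine loc_div _ _ _ 2 ?_ ⟨X 6 * X 5, by ring⟩
    exact mul_ne_zero (mul_ne_zero (pow_ne_zero 2 hf) (hx _)) (hx _)
  · exact zero_mem _

theorem be2_mem (S : Finset (Fin 4)) : be2 k K S ∈ locS K (geqs k) S := by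
  have hf := qf_ne_zero (k := k)
  have hx := X_ne_zero' (k := k)
  rw [be2]
  split_ifs with h1 h2
  · subst h1
    rw [locS, prod_geqs]
    simp (decide := true) only [if_true, if_false, one_mul, mul_one]
    refine loc_div _ _ _ 2 ?_ ⟨X 6 * X 3, by ring⟩
    exact mul_ne_zero (mul_ne_zero (pow_ne_zero 2 hf) (hx _)) (hx _)
  · subst h2
    rw [locS, prod_geqs]
    simp (decide := true) only [if_true, if_false, one_mul, mul_one]
    refine neg_mem (loc_div _ _ _ 2 ?_ ⟨X 6 * X 4, by ring⟩)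
    exact mul_ne_zero (mul_ne_zero (pow_ne_zero 2 hf) (hx _)) (hx _)
  · exact zero_mem _

theorem alpha_mem_cochains :
    alpha k K ∈ cochains 7 (locS K (geqs k)) := by
  intro S J
  rw [alpha]
  split_ifs
  · exact al3_mem S
  · exact be0_mem S
  · exact be1_mem S
  · exact be2_mem S
  · exact zero_mem _

theorem al3_card (S : Finset (Fin 4)) (h : S.card ≠ 3) : al3 k K S = 0 := by
  rw [al3, if_neg, if_neg, if_neg, if_neg]
  all_goals
    rintro rfl
    exact h rfl

theorem be0_card (S : Finset (Fin 4)) (h : S.card ≠ 2) : be0 k K S = 0 := by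
  rw [be0, if_neg, if_neg]
  all_goals
    rintro rfl
    exact h rfl

theorem be1_card (S : Finset (Fin 4)) (h : S.card ≠ 2) : be1 k K S = 0 := by
  rw [be1, if_neg, if_neg]
  all_goals
    rintro rfl
    exact h rfl

theorem be2_card (S : Finset (Fin 4)) (h : S.card ≠ 2) : be2 k K S = 0 := by
  rw [be2, if_neg, if_neg]
  all_goals
    rintro rfl
    exact h rfl

theorem alpha_mem_deg : alpha k K ∈ deg K 7 4 7 := by
  intro S J h
  rw [alpha]
  split_ifs with h1 h2 h3 h4
  · subst h1
    exact al3_card S (fun h' => h (by rw [h']; rfl))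
  · subst h2
    exact be0_card S (fun h' => h (by rw [h']; rfl))
  · subst h3
    exact be1_card S (fun h' => h (by rw [h']; rfl))
  · subst h4
    exact be2_card S (fun h' => h (by rw [h']; rfl))
  · rfl

theorem alpha_zero (S : Finset (Fin 4)) (J : Finset (Fin 7))
    (h : ¬ {3, 4, 5, 6} ⊆ J) : alpha k K S J = 0 := by
  rw [alpha, if_neg, if_neg, if_neg, if_neg]
  all_goals
    rintro rfl
    exact h (by decide)

theorem alpha_mem_fil : alpha k K ∈ fil K 7 4 4 := by
  intro S J h
  refine alpha_zero S J fun hJ => ?_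
  have := Finset.card_le_card hJ
  have h2 : ({3, 4, 5, 6} : Finset (Fin 7)).card = 4 := rfl
  omega

end

end Q54.HD
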