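import Pool.Agent.Q54.HD.Pairing

/-!
# The class of `1 / (f ^ 3 z)` is not zero
-/

set_option autoImplicit false

open MvPowerSeries

namespace Q54.HD

variable {k : Type} [Field k]

theorem pderiv_qf_vx (i : Fin 3) : pderiv k (vx i) (qf k) = X (vy i) := by
  fin_cases i <;>
  simp [qf, vx, vy, Derivation.leibniz, pderiv_X_of_ne]

theorem pderiv_qf_vy (i : Fin 3) : pderiv k (vy i) (qf k) = X (vx i) := by
  fin_cases i <;>
  simp [qf, vx, vy, Derivation.leibniz, pderiv_X_of_ne]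

theorem pderiv_qf_z : pderiv k 6 (qf k) = 0 := by
  simp [qf, Derivation.leibniz, pderiv_X_of_ne]

theorem T_exact_vx (M : ℕ) (i : Fin 3) (h : MvPowerSeries (Fin 7) k) :
    T (M + 1) (M + 3) (qf k * X 6 * pderiv k (vx i) h -
      ((M + 3 : ℕ) : MvPowerSeries (Fin 7) k) * pderiv k (vx i) (qf k * X 6) * h) = 0 := by
  have h1 : pderiv k (vx i) (qf k * X 6) = X 6 * X (vy i) := by
    rw [Derivation.leibniz, pderiv_qf_vx, pderiv_X_of_ne, smul_zero, zero_add, smul_eq_mul]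
    fin_cases i <;> decide
  have h2 : qf k * X 6 * pderiv k (vx i) h -
      ((M + 3 : ℕ) : MvPowerSeries (Fin 7) k) * pderiv k (vx i) (qf k * X 6) * h =
      X 6 * (qf k * pderiv k (vx i) h - ((M + 3 : ℕ) : k) • (X (vy i) * h)) := by
    rw [h1, smul_eq_C_mul, map_natCast]
    ring
  rw [h2, T_z_mul, map_sub, T_qf_mul, map_smul, T_y_mul, smul_eq_mul]
  push_cast
  ring

theorem T_exact_vy (M : ℕ) (i : Fin 3) (h : MvPowerSeries (Fin 7) k) :
    T (M + 1) (M + 3) (qf k * X 6 * pderiv k (vy i) h -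
      ((M + 3 : ℕ) : MvPowerSeries (Fin 7) k) * pderiv k (vy i) (qf k * X 6) * h) = 0 := by
  have h1 : pderiv k (vy i) (qf k * X 6) = X 6 * X (vx i) := by
    rw [Derivation.leibniz, pderiv_qf_vy, pderiv_X_of_ne, smul_zero, zero_add, smul_eq_mul]
    fin_cases i <;> decide
  have h2 : qf k * X 6 * pderiv k (vy i) h -
      ((M + 3 : ℕ) : MvPowerSeries (Fin 7) k) * pderiv k (vy i) (qf k * X 6) * h =
      X 6 * (qf k * pderiv k (vy i) h - ((M + 3 : ℕ) : k) • (X (vx i) * h)) := by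
    rw [h1, smul_eq_C_mul, map_natCast]
    ring
  rw [h2, T_z_mul, map_sub, T_qf_mul, map_smul, T_x_mul, smul_eq_mul]
  push_cast
  ring

theorem T_exact_z (M : ℕ) (h : MvPowerSeries (Fin 7) k) :
    T (M + 1) (M + 3) (qf k * X 6 * pderiv k 6 h -
      ((M + 3 : ℕ) : MvPowerSeries (Fin 7) k) * pderiv k 6 (qf k * X 6) * h) = 0 := by
  have h1 : pderiv k 6 (qf k * X 6) = qf k := by
    rw [Derivation.leibniz, pderiv_qf_z, pderiv_X_self, smul_zero, add_zero, smul_eq_mul, mul_one]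
  have h2 : qf k * X 6 * pderiv k 6 h -
      ((M + 3 : ℕ) : MvPowerSeries (Fin 7) k) * pderiv k 6 (qf k * X 6) * h =
      qf k * (X 6 * pderiv k 6 h - ((M + 3 : ℕ) : k) • h) := by
    rw [h1, smul_eq_C_mul, map_natCast]
    ring
  rw [h2, T_qf_mul, map_sub, map_smul, T_z_mul, T_pderiv_z, smul_eq_mul]
  push_cast
  ring

theorem T_exact (M : ℕ) (j : Fin 7) (h : MvPowerSeries (Fin 7) k) :
    T (M + 1) (M + 3) (qf k * X 6 * pderiv k j h -
      ((M + 3 : ℕ) : MvPowerSeries (Fin 7) k) * pderiv k j (qf k * X 6) * h) = 0 := by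
  fin_cases j
  · exact T_exact_vy M 0 h
  · exact T_exact_vy M 1 h
  · exact T_exact_vy M 2 h
  · exact T_exact_vx M 0 h
  · exact T_exact_vx M 1 h
  · exact T_exact_vx M 2 h
  · exact T_exact_z M h

theorem no_identity [CharZero k] (M : ℕ) (h : Fin 7 → MvPowerSeries (Fin 7) k)
    (a b : MvPowerSeries (Fin 7) k) :
    2 * qf k ^ (M + 1) * X 6 ^ (M + 3) ≠
      ∑ j, (qf k * X 6 * pderiv k j (h j) -
        ((M + 3 : ℕ) : MvPowerSeries (Fin 7) k) * pderiv k j (qf k * X 6) * h j) +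
      qf k * X 6 ^ (M + 4) * a + qf k ^ (M + 3) * X 6 * b := by
  intro heq
  have h1 := congrArg (T (M + 1) (M + 3)) heq
  rw [map_add, map_add, map_sum, Finset.sum_eq_zero (fun j _ => T_exact M j (h j)), zero_add] at h1
  have h2 : T (M + 1) (M + 3) (2 * qf k ^ (M + 1) * X 6 ^ (M + 3)) =
      2 * T (M + 1) 0 (qf k ^ (M + 1)) := by
    have : 2 * qf k ^ (M + 1) * X 6 ^ (M + 3) =
        X 6 ^ (M + 3) * ((2 : k) • qf k ^ (M + 1)) := by
      rw [smul_eq_C_mul, map_ofNat]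
      ring
    rw [this, ← zero_add (M + 3), zero_add (M + 3)]
    have := T_z_pow (M + 1) (M + 3) 0 ((2 : k) • qf k ^ (M + 1))
    rw [zero_add] at this
    rw [this, map_smul, smul_eq_mul]
  have h3 : T (M + 1) (M + 3) (qf k * X 6 ^ (M + 4) * a) = 0 := by
    have e : qf k * X 6 ^ (M + 4) * a = X 6 ^ (M + 3) * (X 6 * (qf k * a)) := by ring
    have := T_z_pow (M + 1) (M + 3) 0 (X 6 * (qf k * a))
    rw [zero_add] at this
    rw [e, this, T_z_mul_zero]
  have h4 : T (M + 1) (M + 3) (qf k ^ (M + 3) * X 6 * b) = 0 := by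
    have e : qf k ^ (M + 3) * X 6 * b = X 6 * (qf k ^ (M + 1) * (qf k * (qf k * b))) := by ring
    obtain ⟨c, hc⟩ := T_qf_pow (k := k) (M + 1) (M + 2) (qf k * (qf k * b))
    rw [e, T_z_mul, hc, T_qf_mul_zero, mul_zero]
  rw [h2, h3, h4, add_zero] at h1
  exact mul_ne_zero two_ne_zero (T_qf_pow_one (M + 1)) h1

end Q54.HD
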