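import Pool.Agent.Q54.HD.Div
import Pool.Agent.Q54.HD.NoId

/-!
# The key contradiction
-/

set_option autoImplicit false

open MvPowerSeries

namespace Q54.HD

section

variable {k : Type} [Field k] {K : Type} [Field K] [Algebra (MvPowerSeries (Fin 7) k) K]
  [IsFractionRing (MvPowerSeries (Fin 7) k) K]

/-- the inclusion of the power series in their field of fractions -/
noncomputable abbrev ia (k : Type) [Field k] (K : Type) [Field K]
    [Algebra (MvPowerSeries (Fin 7) k) K] : MvPowerSeries (Fin 7) k →+* K :=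
  algebraMap (MvPowerSeries (Fin 7) k) K

/-- the logarithmic derivative `∂_j f / f` -/
noncomputable def dlf (k : Type) [Field k] (K : Type) [Field K]
    [Algebra (MvPowerSeries (Fin 7) k) K] (j : Fin 7) : K :=
  ia k K (pderiv k j (qf k)) / ia k K (qf k)

theorem ia_ne_zero {a : MvPowerSeries (Fin 7) k} (ha : a ≠ 0) : ia k K a ≠ 0 := by
  rw [Ne, ← map_zero (ia k K), algebraMap_inj]
  exact ha

theorem qf_ne_zero : qf k ≠ 0 := by
  intro h
  have := pderiv_qf_vx (k := k) 0
  rw [h, map_zero] at this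
  exact (X_prime (vy 0)).ne_zero this.symm

theorem f_ne_zero : ia k K (qf k) ≠ 0 := ia_ne_zero qf_ne_zero

theorem z_ne_zero : ia k K (X 6) ≠ 0 := ia_ne_zero (X_prime 6).ne_zero

theorem ddx_dlf (i j : Fin 7) : ddxD k K i (dlf k K j) = ddxD k K j (dlf k K i) := by
  have hf := f_ne_zero (k := k) (K := K)
  rw [dlf, dlf, Derivation.leibniz_div, Derivation.leibniz_div]
  simp only [ddxD_algebraMap, smul_eq_mul]
  rw [pderiv_comm i j]
  ring

theorem dlf_mem (j : Fin 7) : dlf k K j ∈ loc K (qf k * X 6) :=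
  loc_div _ _ _ 1 qf_ne_zero ⟨X 6, by rw [pow_one]⟩

theorem wedge_exact (h : Finset (Fin 7) → K) :
    ∑ j, (sgn j Finset.univ : K) * (dlf k K j *
      ∑ i ∈ Finset.univ.erase j, (sgn i (Finset.univ.erase j) : K) *
        ddxD k K i (h ((Finset.univ.erase j).erase i))) =
    -∑ j, (sgn j Finset.univ : K) * ddxD k K j
      (∑ i ∈ Finset.univ.erase j, (sgn i (Finset.univ.erase j) : K) *
        (dlf k K i * h ((Finset.univ.erase j).erase i))) := by
  rw [eq_neg_iff_add_eq_zero, ← Finset.sum_add_distrib]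
  have h1 := sum_sgn_eq_zero (Finset.univ : Finset (Fin 7))
    (fun i j => dlf k K i * ddxD k K j (h ((Finset.univ.erase i).erase j)) +
      ddxD k K i (dlf k K j * h ((Finset.univ.erase i).erase j))) (by
      intro i j
      rw [Finset.erase_right_comm, Derivation.leibniz, Derivation.leibniz, ddx_dlf i j]
      simp only [smul_eq_mul]
      ring)
  rw [← h1]
  refine Finset.sum_congr rfl fun j _ => ?_
  rw [map_sum, Finset.mul_sum, Finset.mul_sum, Finset.mul_sum, ← Finset.sum_add_distrib]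
  refine Finset.sum_congr rfl fun i _ => ?_
  rw [del_int]
  ring

theorem core [CharZero k] (τ ρ η : Fin 7 → K) (h : Finset (Fin 7) → K)
    (hρ : ∀ j, ρ j ∈ loc K (X 6 : MvPowerSeries (Fin 7) k)) (hη : ∀ j, η j ∈ loc K (qf k))
    (hh : ∀ J, J.card = 5 → h J ∈ loc K (qf k * X 6))
    (hτ : ∀ j, τ j = ρ j - η j + ∑ i ∈ Finset.univ.erase j,
      (sgn i (Finset.univ.erase j) : K) *
        ddxD k K i (h ((Finset.univ.erase j).erase i)))
    (hsum : ∑ j, (sgn j Finset.univ : K) * (dlf k K j * τ j) =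
      2 / (ia k K (qf k) ^ 3 * ia k K (X 6))) : False := by
  have hf := f_ne_zero (k := k) (K := K)
  have hz := z_ne_zero (k := k) (K := K)
  -- the contraction of `h`
  obtain ⟨H, hH⟩ : ∃ H : Fin 7 → K, ∀ j, H j = ∑ i ∈ Finset.univ.erase j,
      (sgn i (Finset.univ.erase j) : K) *
        (dlf k K i * h ((Finset.univ.erase j).erase i)) := ⟨_, fun _ => rfl⟩
  have hHmem : ∀ j, H j ∈ loc K (qf k * X 6) := by
    intro j
    rw [hH]
    refine AddSubgroup.sum_mem _ fun i hi => int_mem _ _ (loc_mul _ _ _ (dlf_mem i) (hh _ ?_))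
    rw [Finset.card_erase_of_mem hi, Finset.card_erase_of_mem (Finset.mem_univ j)]
    rfl
  have h1 : 2 / (ia k K (qf k) ^ 3 * ia k K (X 6)) =
      ∑ j, ((sgn j Finset.univ : K) * (dlf k K j * ρ j) -
        (sgn j Finset.univ : K) * (dlf k K j * η j) -
        (sgn j Finset.univ : K) * ddxD k K j (H j)) := by
    have h2 := wedge_exact (k := k) h
    simp only [← hH] at h2
    rw [← hsum, Finset.sum_sub_distrib, Finset.sum_sub_distrib, sub_eq_add_neg _ (∑ j, _ *
      ddxD k K j (H j)), ← h2, ← Finset.sum_sub_distrib, ← Finset.sum_add_distrib]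
    refine Finset.sum_congr rfl fun j _ => ?_
    rw [hτ]
    ring
  choose Mρ hMρ using fun j => loc_pow _ _ (hρ j)
  choose Mη hMη using fun j => loc_pow _ _ (hη j)
  choose MH hMH using fun j => loc_pow _ _ (hHmem j)
  obtain ⟨M, hM⟩ : ∃ M : ℕ, M = ∑ j, (Mρ j + Mη j + MH j) := ⟨_, rfl⟩
  have hle : ∀ j, Mρ j + Mη j + MH j ≤ M := fun j => by
    rw [hM]
    exact Finset.single_le_sum (f := fun j => Mρ j + Mη j + MH j) (fun _ _ => Nat.zero_le _)
      (Finset.mem_univ j)
  choose a ha using fun j => hMρ j (M + 3) (by have := hle j; omega)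
  choose b hb using fun j => hMη j (M + 2) (by have := hle j; omega)
  choose c hc using fun j => hMH j (M + 3) (by have := hle j; omega)
  apply no_identity M (fun j => -((sgn j Finset.univ : MvPowerSeries (Fin 7) k) * c j))
    (-∑ j, (sgn j Finset.univ : MvPowerSeries (Fin 7) k) * (pderiv k j (qf k) * b j))
    (∑ j, (sgn j Finset.univ : MvPowerSeries (Fin 7) k) * (pderiv k j (qf k) * a j))
  rw [← algebraMap_inj (K := K)]
  have h3 : ia k K (2 * qf k ^ (M + 1) * X 6 ^ (M + 3)) =
      2 / (ia k K (qf k) ^ 3 * ia k K (X 6)) * (ia k K (qf k) * ia k K (X 6)) ^ (M + 4) := by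
    simp only [map_mul, map_pow, map_ofNat]
    rw [div_mul_eq_mul_div, eq_div_iff (mul_ne_zero (pow_ne_zero 3 hf) hz)]
    ring
  have h4 : (∑ j, (qf k * X 6 * pderiv k j (-((sgn j Finset.univ : MvPowerSeries (Fin 7) k) * c j)) -
        ((M + 3 : ℕ) : MvPowerSeries (Fin 7) k) * pderiv k j (qf k * X 6) *
          -((sgn j Finset.univ : MvPowerSeries (Fin 7) k) * c j)) +
      qf k * X 6 ^ (M + 4) *
        (-∑ j, (sgn j Finset.univ : MvPowerSeries (Fin 7) k) * (pderiv k j (qf k) * b j)) +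
      qf k ^ (M + 3) * X 6 *
        (∑ j, (sgn j Finset.univ : MvPowerSeries (Fin 7) k) * (pderiv k j (qf k) * a j))) =
      ∑ j, ((sgn j Finset.univ : MvPowerSeries (Fin 7) k) *
        (-(qf k * X 6 * pderiv k j (c j)) +
        ((M + 3 : ℕ) : MvPowerSeries (Fin 7) k) * pderiv k j (qf k * X 6) * c j -
        qf k * X 6 ^ (M + 4) * (pderiv k j (qf k) * b j) +
        qf k ^ (M + 3) * X 6 * (pderiv k j (qf k) * a j))) := by
    rw [← Finset.sum_neg_distrib, Finset.mul_sum, Finset.mul_sum, ← Finset.sum_add_distrib,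
      ← Finset.sum_add_distrib]
    refine Finset.sum_congr rfl fun j _ => ?_
    rw [map_neg, Derivation.leibniz, Derivation.map_intCast, smul_zero, add_zero, smul_eq_mul]
    ring
  rw [h4, h3, h1, Finset.sum_mul, map_sum]
  refine Finset.sum_congr rfl fun j _ => ?_
  have h5 := ha j
  have h6 := hb j
  have h7 := hc j
  have h8 := congrArg (ddxD k K j) h7
  rw [Derivation.leibniz, Derivation.leibniz_pow, ddxD_algebraMap, ddxD_algebraMap] at h8
  simp only [smul_eq_mul, nsmul_eq_mul] at h8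
  rw [Nat.add_sub_assoc (by norm_num : 1 ≤ 3)] at h8
  simp only [map_mul, map_add, map_sub, map_neg, map_pow, map_natCast, map_intCast] at h7 h8 ⊢
  rw [← h5, ← h6, ← h7, ← h8, dlf]
  generalize ia k K (pderiv k j (qf k)) = df at *
  generalize ddxD k K j (H j) = dH at *
  generalize algebraMap (MvPowerSeries (Fin 7) k) K (pderiv k j (qf k * X 6)) = dg at *
  generalize (sgn j Finset.univ : K) = s at *
  change ia k K (qf k) ≠ 0 at hf
  generalize ia k K (qf k) = f at *
  generalize ia k K (X 6) = z at *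
  field_simp
  ring

end

end Q54.HD
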