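import Pool.Agent.Q54.HD.Sign

/-!
# The alternating double complex

Let `K` be a field and `∂_0, ..., ∂_{n-1}` derivations of `K`. We consider the
families `c S J` of elements of `K`, for the subsets `S` of `{0, ..., s-1}` and `J` of
`{0, ..., n-1}`. We think of `c S J` as the coefficient of `dx_J` of the component with index `S` of a
Cech cochain with values in the differential forms.
-/

set_option autoImplicit false

namespace Q54.HD

section

variable {K : Type} [Field K] {n s : ℕ}

/-- The Cech differential `(δ c)_S = ∑_{i ∈ S} ± c_{S ∖ i}`. -/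
def cech (c : Finset (Fin s) → Finset (Fin n) → K) (S : Finset (Fin s)) (J : Finset (Fin n)) : K :=
  ∑ i ∈ S, (sgn i S : K) * c (S.erase i) J

/-- The exterior derivative `(d c)_J = ∑_{j ∈ J} ± ∂_j c_{J ∖ j}`. -/
def deRham (del : Fin n → K → K) (c : Finset (Fin s) → Finset (Fin n) → K) (S : Finset (Fin s))
    (J : Finset (Fin n)) : K :=
  ∑ j ∈ J, (sgn j J : K) * del j (c S (J.erase j))

/-- The differential `D = δ + (-1) ^ q d` (on `c S J` for `S` with `q` elements) of the total
complex. -/
def tot (del : Fin n → K → K) (c : Finset (Fin s) → Finset (Fin n) → K) (S : Finset (Fin s))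
    (J : Finset (Fin n)) : K :=
  cech c S J + (-1) ^ S.card * deRham del c S J

/-- The family `c` has total degree `m`: `c S J = 0` unless `#S + #J = m`. -/
def IsDeg (m : ℤ) (c : Finset (Fin s) → Finset (Fin n) → K) : Prop :=
  ∀ S J, (S.card : ℤ) + J.card ≠ m → c S J = 0

/-- The family `c` contains only forms of degree at least `p`: `c S J = 0` if `#J < p`. -/
def IsFil (p : ℤ) (c : Finset (Fin s) → Finset (Fin n) → K) : Prop :=
  ∀ S J, (J.card : ℤ) < p → c S J = 0

/-- The elements `c S J` lie in `L S`. -/
def IsCochain (L : Finset (Fin s) → AddSubgroup K) (c : Finset (Fin s) → Finset (Fin n) → K) :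
    Prop :=
  ∀ S J, c S J ∈ L S

theorem cech_apply (c : Finset (Fin s) → Finset (Fin n) → K) (S : Finset (Fin s))
    (J : Finset (Fin n)) : cech c S J = ∑ i ∈ S, (sgn i S : K) * c (S.erase i) J := rfl

theorem deRham_apply (del : Fin n → K → K) (c : Finset (Fin s) → Finset (Fin n) → K)
    (S : Finset (Fin s)) (J : Finset (Fin n)) :
    deRham del c S J = ∑ j ∈ J, (sgn j J : K) * del j (c S (J.erase j)) := rfl

theorem tot_apply (del : Fin n → K → K) (c : Finset (Fin s) → Finset (Fin n) → K)
    (S : Finset (Fin s)) (J : Finset (Fin n)) :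
    tot del c S J = cech c S J + (-1) ^ S.card * deRham del c S J := rfl

theorem tot_add (del : Fin n → K → K) (hd : ∀ j u v, del j (u + v) = del j u + del j v)
    (c c' : Finset (Fin s) → Finset (Fin n) → K) : tot del (c + c') = tot del c + tot del c' := by
  funext S J
  rw [Pi.add_apply, Pi.add_apply]
  simp only [tot, cech, deRham, Pi.add_apply, hd, mul_add, Finset.sum_add_distrib]
  ring

theorem IsDeg.add {m : ℤ} {c c' : Finset (Fin s) → Finset (Fin n) → K} (h : IsDeg m c)
    (h' : IsDeg m c') : IsDeg m (c + c') := fun S J hm => by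
  rw [Pi.add_apply, Pi.add_apply, h S J hm, h' S J hm, add_zero]

theorem IsDeg.neg {m : ℤ} {c : Finset (Fin s) → Finset (Fin n) → K} (h : IsDeg m c) :
    IsDeg m (-c) := fun S J hm => by
  rw [Pi.neg_apply, Pi.neg_apply, h S J hm, neg_zero]

theorem IsDeg.zero (m : ℤ) : IsDeg m (0 : Finset (Fin s) → Finset (Fin n) → K) :=
  fun _ _ _ => rfl

theorem IsFil.add {p : ℤ} {c c' : Finset (Fin s) → Finset (Fin n) → K} (h : IsFil p c)
    (h' : IsFil p c') : IsFil p (c + c') := fun S J hm => by
  rw [Pi.add_apply, Pi.add_apply, h S J hm, h' S J hm, add_zero]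

theorem IsFil.neg {p : ℤ} {c : Finset (Fin s) → Finset (Fin n) → K} (h : IsFil p c) :
    IsFil p (-c) := fun S J hm => by
  rw [Pi.neg_apply, Pi.neg_apply, h S J hm, neg_zero]

theorem IsFil.zero (p : ℤ) : IsFil p (0 : Finset (Fin s) → Finset (Fin n) → K) :=
  fun _ _ _ => rfl

theorem IsCochain.add {L : Finset (Fin s) → AddSubgroup K}
    {c c' : Finset (Fin s) → Finset (Fin n) → K} (h : IsCochain L c) (h' : IsCochain L c') :
    IsCochain L (c + c') :=
  fun S J => add_mem (h S J) (h' S J)

theorem IsCochain.neg {L : Finset (Fin s) → AddSubgroup K}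
    {c : Finset (Fin s) → Finset (Fin n) → K} (h : IsCochain L c) : IsCochain L (-c) :=
  fun S J => neg_mem (h S J)

theorem IsCochain.zero (L : Finset (Fin s) → AddSubgroup K) :
    IsCochain L (0 : Finset (Fin s) → Finset (Fin n) → K) :=
  fun _ _ => zero_mem _

variable (K n s) in
/-- The subgroup of the families of total degree `m`. -/
def deg (m : ℤ) : AddSubgroup (Finset (Fin s) → Finset (Fin n) → K) :=
  ⟨⟨⟨{c | IsDeg m c}, IsDeg.add⟩, IsDeg.zero m⟩, IsDeg.neg⟩

variable (K n s) in
/-- The filtration by the degree of forms. -/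
def fil (p : ℤ) : AddSubgroup (Finset (Fin s) → Finset (Fin n) → K) :=
  ⟨⟨⟨{c | IsFil p c}, IsFil.add⟩, IsFil.zero p⟩, IsFil.neg⟩

variable (n) in
/-- The subgroup of the families such that `c S J` lies in `L S`. -/
def cochains (L : Finset (Fin s) → AddSubgroup K) :
    AddSubgroup (Finset (Fin s) → Finset (Fin n) → K) :=
  ⟨⟨⟨{c | IsCochain L c}, IsCochain.add⟩, IsCochain.zero L⟩, IsCochain.neg⟩

variable (del : Fin n → Derivation ℤ K K)

theorem del_int (j : Fin n) (z : ℤ) (u : K) : del j ((z : K) * u) = z * del j u := by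
  rw [Derivation.leibniz, Derivation.map_intCast, smul_zero, add_zero, smul_eq_mul]

theorem del_sgn (j : Fin n) (a : ℕ) (u : K) :
    del j ((-1) ^ a * u) = (-1) ^ a * del j u := by
  have h := del_int del j ((-1) ^ a) u
  push_cast at h
  exact h

theorem cech_cech (c : Finset (Fin s) → Finset (Fin n) → K) : cech (cech c) = 0 := by
  funext S J
  rw [cech_apply]
  simp only [cech_apply, Finset.mul_sum]
  exact sum_sgn_eq_zero S (fun i j => c ((S.erase i).erase j) J) fun i j => by
    rw [Finset.erase_right_comm]

theorem deRham_deRham (hdel : ∀ i j u, del i (del j u) = del j (del i u))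
    (c : Finset (Fin s) → Finset (Fin n) → K) :
    deRham (fun j => del j) (deRham (fun j => del j) c) = 0 := by
  funext S J
  rw [deRham_apply]
  simp only [deRham_apply, map_sum, del_int, Finset.mul_sum]
  exact sum_sgn_eq_zero J (fun i j => del i (del j (c S ((J.erase i).erase j)))) fun i j => by
    rw [Finset.erase_right_comm, hdel]

theorem cech_deRham (c : Finset (Fin s) → Finset (Fin n) → K) :
    cech (deRham (fun j => del j) c) = deRham (fun j => del j) (cech c) := by
  funext S J
  rw [cech_apply, deRham_apply]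
  simp only [deRham_apply, cech_apply, map_sum, del_int, Finset.mul_sum]
  rw [Finset.sum_comm]
  exact Finset.sum_congr rfl fun j _ => Finset.sum_congr rfl fun i _ => by ring

theorem tot_tot (hdel : ∀ i j u, del i (del j u) = del j (del i u))
    (c : Finset (Fin s) → Finset (Fin n) → K) :
    tot (fun j => del j) (tot (fun j => del j) c) = 0 := by
  funext S J
  have h1 : cech (tot (fun j => del j) c) S J =
      -((-1) ^ S.card * cech (deRham (fun j => del j) c) S J) := by
    rw [cech_apply, cech_apply]
    simp only [tot_apply, mul_add, Finset.sum_add_distrib, Finset.mul_sum]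
    have h0 : cech (cech c) S J = 0 := by rw [cech_cech]; rfl
    rw [cech_apply] at h0
    rw [h0, zero_add, ← Finset.sum_neg_distrib]
    refine Finset.sum_congr rfl fun i hi => ?_
    rw [← Finset.card_erase_add_one hi, pow_succ]
    ring
  have h2 : deRham (fun j => del j) (tot (fun j => del j) c) S J =
      deRham (fun j => del j) (cech c) S J := by
    rw [deRham_apply, deRham_apply]
    simp only [tot_apply, map_add, del_sgn, mul_add, Finset.sum_add_distrib]
    have h0 : deRham (fun j => del j) (deRham (fun j => del j) c) S J = 0 := by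
      rw [deRham_deRham del hdel]; rfl
    rw [deRham_apply] at h0
    have h3 : ∑ j ∈ J, (sgn j J : K) *
        ((-1) ^ S.card * del j (deRham (fun j => del j) c S (J.erase j))) = 0 := by
      rw [show (0 : K) = (-1) ^ S.card * 0 by rw [mul_zero], ← h0, Finset.mul_sum]
      exact Finset.sum_congr rfl fun j _ => by ring
    rw [h3, add_zero]
  rw [tot_apply, h1, h2, cech_deRham, neg_add_cancel]
  rfl

theorem int_mem (L : AddSubgroup K) (z : ℤ) {u : K} (hu : u ∈ L) : (z : K) * u ∈ L := by
  rw [← zsmul_eq_mul]
  exact zsmul_mem hu z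

theorem tot_mem_cochains (L : Finset (Fin s) → AddSubgroup K)
    (hL : ∀ (S : Finset (Fin s)) (i : Fin s), i ∈ S → L (S.erase i) ≤ L S)
    (hL' : ∀ S j, ∀ u ∈ L S, del j u ∈ L S) (c : Finset (Fin s) → Finset (Fin n) → K)
    (hc : c ∈ cochains n L) : tot (fun j => del j) c ∈ cochains n L := by
  intro S J
  rw [tot_apply, cech_apply, deRham_apply]
  refine add_mem (sum_mem fun i hi => ?_) ?_
  · exact int_mem _ _ (hL S i hi (hc _ _))
  · have := int_mem (L S) ((-1) ^ S.card) (u := ∑ j ∈ J, (sgn j J : K) * del j (c S (J.erase j)))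
      (sum_mem fun j _ => int_mem _ _ (hL' _ _ _ (hc _ _)))
    push_cast at this
    exact this

theorem tot_mem_deg (m : ℤ) (c : Finset (Fin s) → Finset (Fin n) → K) (hc : c ∈ deg K n s m) :
    tot (fun j => del j) c ∈ deg K n s (m + 1) := by
  intro S J hm
  rw [tot_apply, cech_apply, deRham_apply, Finset.sum_eq_zero, Finset.sum_eq_zero, mul_zero,
    add_zero]
  · intro j hj
    rw [hc S (J.erase j), map_zero, mul_zero]
    rw [← Finset.card_erase_add_one hj] at hm
    push_cast at hm
    omega
  · intro i hi
    rw [hc (S.erase i) J, mul_zero]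
    rw [← Finset.card_erase_add_one hi] at hm
    push_cast at hm
    omega

theorem tot_mem_fil (p : ℤ) (c : Finset (Fin s) → Finset (Fin n) → K) (hc : c ∈ fil K n s p) :
    tot (fun j => del j) c ∈ fil K n s p := by
  intro S J hm
  rw [tot_apply, cech_apply, deRham_apply, Finset.sum_eq_zero, Finset.sum_eq_zero, mul_zero,
    add_zero]
  · intro j hj
    rw [hc S (J.erase j), map_zero, mul_zero]
    have := Finset.card_erase_le (s := J) (a := j)
    omega
  · intro i hi
    rw [hc (S.erase i) J hm, mul_zero]

end

end Q54.HD
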