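import Mathlib

/-!
# The spectral sequence of a filtered complex
-/

set_option autoImplicit false

namespace Q54.HD

/-- A filtered complex: subgroups `C m` (the cochains of degree `m`) and `F p` (a decreasing
filtration) of an abelian group `V` with a differential `D`. The group `F^p C^m` is the
intersection of `F p` and `C m`. -/
structure FilteredComplex (V : Type) [AddCommGroup V] where
  /-- the differential -/
  D : V →+ V
  /-- the cochains of degree `m` -/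
  C : ℤ → AddSubgroup V
  /-- the filtration -/
  F : ℤ → AddSubgroup V
  D_D : ∀ v, D (D v) = 0
  D_C : ∀ m, ∀ v ∈ C m, D v ∈ C (m + 1)
  D_F : ∀ p, ∀ v ∈ F p, D v ∈ F p

namespace FilteredComplex

variable {V : Type} [AddCommGroup V] (X : FilteredComplex V)

/-- `Z_r^p = {c ∈ F^p C^m | D c ∈ F^(p + r) C^(m + 1)}`. -/
def Z (r p m : ℤ) : AddSubgroup V := X.C m ⊓ X.F p ⊓ (X.F (p + r)).comap X.D

/-- `B_r^p = Z_{r-1}^{p+1} + D Z_{r-1}^{p-r+1}`, in degree `m`. -/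
def B (r p m : ℤ) : AddSubgroup V :=
  X.Z (r - 1) (p + 1) m ⊔ (X.Z (r - 1) (p - r + 1) (m - 1)).map X.D

theorem mem_Z {r p m : ℤ} {c : V} :
    c ∈ X.Z r p m ↔ c ∈ X.C m ∧ c ∈ X.F p ∧ X.D c ∈ X.F (p + r) := by
  rw [Z, AddSubgroup.mem_inf, AddSubgroup.mem_inf, AddSubgroup.mem_comap, and_assoc]

theorem D_mem_Z (r p m : ℤ) (c : V) (hc : c ∈ X.Z r p m) : X.D c ∈ X.Z r (p + r) (m + 1) := by
  rw [mem_Z] at hc ⊢
  refine ⟨X.D_C m c hc.1, hc.2.2, ?_⟩
  rw [X.D_D]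
  exact zero_mem _

theorem D_mem_B (r p m : ℤ) (c : V) (hc : c ∈ X.B r p m) : X.D c ∈ X.B r (p + r) (m + 1) := by
  obtain ⟨a, ha, b, hb, rfl⟩ := AddSubgroup.mem_sup.1 hc
  obtain ⟨b, hb, rfl⟩ := hb
  rw [map_add, X.D_D, add_zero]
  refine AddSubgroup.mem_sup_right ⟨a, ?_, rfl⟩
  have h1 : p + r - r + 1 = p + 1 := by ring
  have h2 : m + 1 - 1 = m := by ring
  rw [h1, h2]
  exact ha

/-- The restriction of `D` to a map from `Z_r^p` to `Z_r^{p + r}`. -/
def DZ (r p m : ℤ) : X.Z r p m →+ X.Z r (p + r) (m + 1) :=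
  (X.D.comp (X.Z r p m).subtype).codRestrict (X.Z r (p + r) (m + 1))
    fun c => X.D_mem_Z r p m c c.2

theorem DZ_mem (r p m : ℤ) : (X.B r p m).addSubgroupOf (X.Z r p m) ≤
    ((X.B r (p + r) (m + 1)).addSubgroupOf (X.Z r (p + r) (m + 1))).comap (X.DZ r p m) :=
  fun c hc => X.D_mem_B r p m c hc

/-- The differential `d_r : E_r^{p, m - p} → E_r^{p + r, m + 1 - (p + r)}`, induced by `D`, of the
spectral sequence of the filtered complex. Here `E_r^{p, m-p} = Z_r^p / B_r^p`. -/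
def d (r p m : ℤ) : X.Z r p m ⧸ (X.B r p m).addSubgroupOf (X.Z r p m) →+
    X.Z r (p + r) (m + 1) ⧸ (X.B r (p + r) (m + 1)).addSubgroupOf (X.Z r (p + r) (m + 1)) :=
  QuotientAddGroup.map _ _ (X.DZ r p m) (X.DZ_mem r p m)

/-- The differential `d_r` on `E_r^{p, m - p}` is zero. -/
def dIsZero (r p m : ℤ) : Prop := ∀ e, X.d r p m e = 0

/-- The spectral sequence degenerates at `E_2`: the differentials `d_r` with `r ≥ 2` vanish. -/
def DegeneratesAtE2 : Prop := ∀ r p m : ℤ, 2 ≤ r → X.dIsZero r p m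

theorem not_dIsZero (r p m : ℤ) (c : V) (hc : c ∈ X.Z r p m)
    (h : X.D c ∉ X.B r (p + r) (m + 1)) : ¬X.dIsZero r p m := by
  intro h0
  have h1 := h0 (QuotientAddGroup.mk ⟨c, hc⟩)
  rw [d, QuotientAddGroup.map_mk, QuotientAddGroup.eq_zero_iff] at h1
  exact h h1

end FilteredComplex

end Q54.HD
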