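import Pool.Agent.Q54.HD.Frac
import Pool.Agent.Q54.HD.Fam
import Pool.Agent.Q54.HD.Spectral

/-!
# The local Hodge-de Rham homology spectral sequence

Let `k` be a field, `R = k[[x_0, ..., x_{n-1}]]`, let `K` be the field of fractions of `R`, and let
`g = (g_0, ..., g_{s-1})` be a sequence of non-zero elements of `R`, which generate an ideal `I`. Put
`X = Spec R`, `Y = V(I)` and `A = R ⧸ I`.

The Cech complex `C(g; R)` has in degree `q` the sum of the rings `R[1/g_S]`, `g_S = ∏_{i ∈ S} g_i`,
over the subsets `S` of `{0, ..., s-1}` with `q` elements. Its cohomology is the local cohomology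
`H^q_I(R)`. The group `Ω^p` of the differential forms of `R` over `k` is free with the basis `dx_J`,
where `J` runs through the subsets of `{0, ..., n-1}` with `p` elements.

The elements of the Cech-de Rham double complex `C^q(g; Ω^p)` are the families `c S J`, where
`c S J ∈ R[1/g_S]` is the coefficient of `dx_J` of the component with index `S`, and
`c S J = 0` unless `S` has `q` and `J` has `p` elements. Since `R` is a domain and the `g_i` are not
zero, all the rings `R[1/g_S]` are subrings of the field of fractions `K` of `R`.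

The total complex of this double complex computes the hypercohomology `H^m_Y(X, Ω^•_X)` with supports
in `Y`. The spectral sequence of this complex with the filtration by the degree of forms is the
local Hodge-de Rham homology spectral sequence of `R → A`: the first hypercohomology spectral
sequence `E_1^{p,q} = H^q_Y(X, Ω^p_X)`, `E_2^{p,q} = H^p_dR(H^q_I(R))`.
-/

set_option autoImplicit false

namespace Q54.HD

instance instIsDomainPS (k : Type) [Field k] (n : ℕ) : IsDomain (MvPowerSeries (Fin n) k) :=
  NoZeroDivisors.to_isDomain _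

section

variable {k : Type} [Field k] {n s : ℕ} (K : Type) [Field K]
  [Algebra (MvPowerSeries (Fin n) k) K]

/-- The element `u` of the field of fractions `K` of `R` lies in `R[1/h]`, that is
`u h ^ m ∈ R` for some `m`. -/
def InLoc (h : MvPowerSeries (Fin n) k) (u : K) : Prop :=
  ∃ (m : ℕ) (a : MvPowerSeries (Fin n) k), u * algebraMap (MvPowerSeries (Fin n) k) K h ^ m =
    algebraMap (MvPowerSeries (Fin n) k) K a

variable {K} in
theorem InLoc.add {h : MvPowerSeries (Fin n) k} {u v : K} (hu : InLoc K h u) (hv : InLoc K h v) :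
    InLoc K h (u + v) := by
  obtain ⟨m, a, hu⟩ := hu
  obtain ⟨l, b, hv⟩ := hv
  refine ⟨m + l, a * h ^ l + b * h ^ m, ?_⟩
  rw [map_add, map_mul, map_mul, map_pow, map_pow, ← hu, ← hv]
  ring

theorem InLoc.zero (h : MvPowerSeries (Fin n) k) : InLoc K h 0 := ⟨0, 0, by simp⟩

variable {K} in
theorem InLoc.neg {h : MvPowerSeries (Fin n) k} {u : K} (hu : InLoc K h u) :
    InLoc K h (-u) := by
  obtain ⟨m, a, hu⟩ := hu
  refine ⟨m, -a, ?_⟩
  rw [map_neg, ← hu, neg_mul]

/-- The localization `R[1/h]` of `R = k[[x_0, ..., x_{n-1}]]`, where `h ≠ 0`, as a subgroup of the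
field of fractions `K` of `R`. -/
def loc (h : MvPowerSeries (Fin n) k) : AddSubgroup K :=
  ⟨⟨⟨{u | InLoc K h u}, InLoc.add⟩, InLoc.zero K h⟩, InLoc.neg⟩

/-- The ring `R[1/g_S]`, where `g_S` is the product of the `g_i` with `i ∈ S`. -/
noncomputable def locS (g : Fin s → MvPowerSeries (Fin n) k) (S : Finset (Fin s)) :
    AddSubgroup K :=
  loc K (∏ i ∈ S, g i)

variable {K} in
theorem loc_mono (h h' : MvPowerSeries (Fin n) k) (u : K) (hu : u ∈ loc K h) :
    u ∈ loc K (h * h') := by
  obtain ⟨m, a, hu⟩ := hu
  refine ⟨m, a * h' ^ m, ?_⟩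
  rw [map_mul, map_mul, map_pow, ← hu]
  ring

theorem loc_erase (g : Fin s → MvPowerSeries (Fin n) k) (S : Finset (Fin s)) (i : Fin s)
    (hi : i ∈ S) : locS K g (S.erase i) ≤ locS K g S := by
  rw [locS, locS, ← Finset.prod_erase_mul S g hi]
  exact loc_mono _ _

/-- The cochains of degree `m` of the total complex of the Cech-de Rham double complex: the families
`c S J` with `c S J ∈ R[1/g_S]`, and `c S J = 0` unless `#S + #J = m`. -/
noncomputable def cochainsDeg (g : Fin s → MvPowerSeries (Fin n) k) (m : ℤ) :
    AddSubgroup (Finset (Fin s) → Finset (Fin n) → K) :=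
  cochains n (locS K g) ⊓ deg K n s m

variable [IsFractionRing (MvPowerSeries (Fin n) k) K]

variable (k)

/-- The partial derivative `∂/∂x_j` on the field of fractions `K` of `k[[x_0, ..., x_{n-1}]]`. -/
noncomputable def ddx (j : Fin n) (u : K) : K := fracDerFun K (MvPowerSeries.pderiv k j) u

/-- The partial derivative as a derivation. -/
noncomputable def ddxD (j : Fin n) : Derivation ℤ K K :=
  fracDer K (MvPowerSeries.pderiv k j)

variable {k K}

theorem ddxD_apply (j : Fin n) (u : K) : ddxD k K j u = ddx k K j u := rfl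

theorem ddxD_algebraMap (j : Fin n) (a : MvPowerSeries (Fin n) k) :
    ddxD k K j (algebraMap _ K a) = algebraMap _ K (MvPowerSeries.pderiv k j a) :=
  fracDer_algebraMap _ _

theorem loc_ddx (h : MvPowerSeries (Fin n) k) (j : Fin n) (u : K) (hu : u ∈ loc K h) :
    ddxD k K j u ∈ loc K h := by
  obtain ⟨m, a, hu⟩ := hu
  refine ⟨m + 1, MvPowerSeries.pderiv k j a * h - m * MvPowerSeries.pderiv k j h * a, ?_⟩
  have h1 := congrArg (ddxD k K j) hu
  rw [Derivation.leibniz, Derivation.leibniz_pow, ddxD_algebraMap, ddxD_algebraMap, smul_eq_mul,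
    smul_eq_mul, smul_eq_mul, nsmul_eq_mul] at h1
  rw [map_sub, map_mul, map_mul, map_mul, map_natCast, ← h1, ← hu]
  rcases m with _ | m
  · simp
  · rw [Nat.add_sub_cancel]
    push_cast
    ring

omit [Field K] [Algebra (MvPowerSeries (Fin n) k) K]
  [IsFractionRing (MvPowerSeries (Fin n) k) K] in
theorem pderiv_comm (i j : Fin n) (a : MvPowerSeries (Fin n) k) :
    MvPowerSeries.pderiv k i (MvPowerSeries.pderiv k j a) =
      MvPowerSeries.pderiv k j (MvPowerSeries.pderiv k i a) := by
  ext e
  simp only [MvPowerSeries.coeff_pderiv]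
  rw [add_right_comm]
  by_cases h : i = j
  · subst h
    ring
  · have h1 : (Finsupp.single j 1 : Fin n →₀ ℕ) i = 0 := by
      rw [Finsupp.single_eq_of_ne h]
    have h2 : (Finsupp.single i 1 : Fin n →₀ ℕ) j = 0 := by
      rw [Finsupp.single_eq_of_ne (Ne.symm h)]
    simp only [Finsupp.add_apply, h1, h2]
    push_cast
    ring

theorem ddx_comm (i j : Fin n) (u : K) :
    ddxD k K i (ddxD k K j u) = ddxD k K j (ddxD k K i u) :=
  fracDer_comm _ _ (pderiv_comm i j) u

variable (k K)

/-- The differential of the total complex of the Cech-de Rham double complex. -/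
noncomputable def totD (c : Finset (Fin s) → Finset (Fin n) → K) :
    Finset (Fin s) → Finset (Fin n) → K :=
  tot (ddx k K) c

theorem totD_add (c c' : Finset (Fin s) → Finset (Fin n) → K) :
    totD k K (c + c') = totD k K c + totD k K c' :=
  tot_add _ (fun j u v => map_add (ddxD k K j) u v) c c'

/-- The differential of the total complex of the Cech-de Rham double complex, as a homomorphism. -/
noncomputable def totH (s : ℕ) :
    (Finset (Fin s) → Finset (Fin n) → K) →+ (Finset (Fin s) → Finset (Fin n) → K) :=
  AddMonoidHom.mk' (totD k K) (totD_add k K)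

theorem totH_totH (c : Finset (Fin s) → Finset (Fin n) → K) :
    totH k K s (totH k K s c) = 0 :=
  tot_tot (ddxD k K) ddx_comm c

variable {k} in
theorem totH_mem_cochainsDeg (g : Fin s → MvPowerSeries (Fin n) k) (m : ℤ)
    (c : Finset (Fin s) → Finset (Fin n) → K) (hc : c ∈ cochainsDeg K g m) :
    totH k K s c ∈ cochainsDeg K g (m + 1) :=
  ⟨tot_mem_cochains (ddxD k K) _ (loc_erase K g) (fun _ j u hu => loc_ddx _ j u hu) c hc.1,
    tot_mem_deg (ddxD k K) m c hc.2⟩

theorem totH_mem_fil (p : ℤ) (c : Finset (Fin s) → Finset (Fin n) → K)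
    (hc : c ∈ fil K n s p) : totH k K s c ∈ fil K n s p :=
  tot_mem_fil (ddxD k K) p c hc

variable {k} in
/-- The total complex of the Cech-de Rham double complex `C^q(g; Ω^p)`, filtered by the degree of
forms. The cochains are the families `c S J` with `c S J ∈ R[1/g_S]`. -/
noncomputable def cechDeRham (g : Fin s → MvPowerSeries (Fin n) k) :
    FilteredComplex (Finset (Fin s) → Finset (Fin n) → K) :=
  ⟨totH k K s, cochainsDeg K g, fil K n s, totH_totH k K, totH_mem_cochainsDeg K g,
    totH_mem_fil k K⟩

end

end Q54.HD
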