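import Pool.Agent.Q54.HD.Defs

/-!
# Divisibility by variables, and intersections of localizations
-/

set_option autoImplicit false

open MvPowerSeries

namespace Q54.HD

section

variable {k : Type} [Field k] {n : ℕ}

theorem X_dvd_iff_order (j : Fin n) (φ : MvPowerSeries (Fin n) k) :
    X j ∣ φ ↔ 1 ≤ weightedOrder (Pi.single j 1) φ := by
  have hw : ∀ d : Fin n →₀ ℕ, Finsupp.weight (Pi.single j 1 : Fin n → ℕ) d = d j := by
    intro d
    rw [Finsupp.weight_apply, Finsupp.sum_fintype _ _ (by simp)]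
    rw [Finset.sum_eq_single j]
    · simp
    · intro i _ hi
      simp [Pi.single_eq_of_ne hi]
    · simp
  rw [X_dvd_iff]
  constructor
  · intro h
    have := nat_le_weightedOrder (Pi.single j 1 : Fin n → ℕ) (f := φ) (n := 1) (fun d hd => by
      rw [hw] at hd
      exact h d (by omega))
    exact_mod_cast this
  · intro h d hd
    apply coeff_eq_zero_of_lt_weightedOrder (Pi.single j 1 : Fin n → ℕ)
    rw [hw, hd]
    exact lt_of_lt_of_le (by norm_num) h

theorem X_prime (j : Fin n) : Prime (X j : MvPowerSeries (Fin n) k) := by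
  refine ⟨?_, ?_, ?_⟩
  · intro h
    have := congrArg (coeff (Finsupp.single j 1)) h
    rw [coeff_X, if_pos rfl] at this
    simp at this
  · intro h
    have := h.map (constantCoeff (σ := Fin n) (R := k))
    rw [constantCoeff_X] at this
    exact not_isUnit_zero this
  · intro a b h
    rw [X_dvd_iff_order, weightedOrder_mul] at h
    rw [X_dvd_iff_order, X_dvd_iff_order]
    by_contra hcon
    push Not at hcon
    obtain ⟨h1, h2⟩ := hcon
    rw [Order.lt_one_iff] at h1 h2
    rw [h1, h2] at h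
    norm_num at h

theorem X_pow_dvd_of_mul (j : Fin n) (m l : ℕ) (A p : MvPowerSeries (Fin n) k)
    (hp : ¬ X j ∣ p) (h : X j ^ m ∣ A * p ^ l) : X j ^ m ∣ A := by
  refine Prime.pow_dvd_of_dvd_mul_right (X_prime j) m ?_ h
  intro h'
  exact hp ((X_prime j).dvd_of_dvd_pow h')

theorem X_not_dvd_X (i j : Fin n) (h : i ≠ j) : ¬ (X i : MvPowerSeries (Fin n) k) ∣ X j := by
  rw [X_dvd_iff]
  push Not
  refine ⟨Finsupp.single j 1, Finsupp.single_eq_of_ne h, ?_⟩
  rw [coeff_X, if_pos rfl]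
  exact one_ne_zero

variable {K : Type} [Field K] [Algebra (MvPowerSeries (Fin n) k) K]
  [IsFractionRing (MvPowerSeries (Fin n) k) K]

theorem algebraMap_inj (a b : MvPowerSeries (Fin n) k) :
    algebraMap _ K a = algebraMap _ K b ↔ a = b :=
  (IsFractionRing.injective (MvPowerSeries (Fin n) k) K).eq_iff

theorem loc_pow (h : MvPowerSeries (Fin n) k) (u : K) (hu : u ∈ loc K h) :
    ∃ M : ℕ, ∀ N, M ≤ N → ∃ a : MvPowerSeries (Fin n) k,
      u * algebraMap _ K h ^ N = algebraMap _ K a := by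
  obtain ⟨m, a, hu⟩ := hu
  refine ⟨m, fun N hN => ⟨a * h ^ (N - m), ?_⟩⟩
  rw [map_mul, map_pow, ← hu, mul_assoc, ← pow_add, Nat.add_sub_cancel' hN]

theorem loc_le_of_dvd_pow (h h' : MvPowerSeries (Fin n) k) (l : ℕ) (hl : h ∣ h' ^ l)
    (u : K) (hu : u ∈ loc K h) : u ∈ loc K h' := by
  obtain ⟨m, a, hu⟩ := hu
  obtain ⟨c, hc⟩ := hl
  refine ⟨l * m, a * c ^ m, ?_⟩
  rw [pow_mul, ← map_pow, hc, map_mul, map_mul, map_pow, ← hu]
  ring

theorem loc_mul (h : MvPowerSeries (Fin n) k) (u v : K) (hu : u ∈ loc K h)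
    (hv : v ∈ loc K h) : u * v ∈ loc K h := by
  obtain ⟨m, a, hu⟩ := hu
  obtain ⟨l, b, hv⟩ := hv
  refine ⟨m + l, a * b, ?_⟩
  rw [map_mul, ← hu, ← hv, pow_add]
  ring

theorem loc_algebraMap (h a : MvPowerSeries (Fin n) k) :
    algebraMap _ K a ∈ loc K h :=
  ⟨0, a, by rw [pow_zero, mul_one]⟩

theorem loc_div (h a b : MvPowerSeries (Fin n) k) (m : ℕ) (hb : b ≠ 0) (hd : b ∣ h ^ m) :
    algebraMap _ K a / algebraMap _ K b ∈ loc K h := by
  obtain ⟨c, hc⟩ := hd
  refine ⟨m, a * c, ?_⟩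
  have hb' : algebraMap _ K b ≠ 0 := by
    rw [Ne, ← map_zero (algebraMap (MvPowerSeries (Fin n) k) K), algebraMap_inj]
    exact hb
  rw [← map_pow, hc, map_mul, map_mul]
  field_simp

/-- `R[1/(P x_a)] ∩ R[1/(P q)] = R[1/P]` if `x_a` does not divide `q`. -/
theorem loc_inter (P q : MvPowerSeries (Fin n) k) (a : Fin n) (hq : ¬ X a ∣ q)
    (u : K) (h1 : u ∈ loc K (P * X a)) (h2 : u ∈ loc K (P * q)) : u ∈ loc K P := by
  obtain ⟨m1, h1⟩ := loc_pow _ _ h1
  obtain ⟨m2, h2⟩ := loc_pow _ _ h2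
  set m := max m1 m2 with hm
  obtain ⟨A, hA⟩ := h1 m (le_max_left _ _)
  obtain ⟨B, hB⟩ := h2 m (le_max_right _ _)
  have h3 : A * q ^ m = B * X a ^ m := by
    rw [← algebraMap_inj (K := K), map_mul, map_mul, ← hA, ← hB]
    simp only [map_mul, map_pow]
    ring
  obtain ⟨A', hA'⟩ := X_pow_dvd_of_mul a m m A q hq ⟨B, by rw [h3, mul_comm]⟩
  refine ⟨m, A', ?_⟩
  have h4 : algebraMap _ K (X a : MvPowerSeries (Fin n) k) ^ m ≠ 0 := by
    refine pow_ne_zero _ ?_
    rw [Ne, ← map_zero (algebraMap (MvPowerSeries (Fin n) k) K), algebraMap_inj]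
    exact (X_prime a).ne_zero
  apply mul_left_cancel₀ h4
  rw [← map_pow, ← map_mul, ← hA', ← hA]
  simp only [map_mul, map_pow]
  ring

/-- The terms of a power series whose exponents satisfy a condition. -/
noncomputable def filt (Q : (Fin n →₀ ℕ) → Prop) [DecidablePred Q]
    (A : MvPowerSeries (Fin n) k) : MvPowerSeries (Fin n) k :=
  fun e => if Q e then coeff e A else 0

theorem coeff_filt (Q : (Fin n →₀ ℕ) → Prop) [DecidablePred Q] (A : MvPowerSeries (Fin n) k)
    (e : Fin n →₀ ℕ) : coeff e (filt Q A) = if Q e then coeff e A else 0 := rfl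

/-- If `A x_c^m = B x_b^m - C x_a^m` then `A` lies in the ideal generated by `x_a^m`
and `x_b^m`. -/
theorem split_aux (a b c : Fin n) (hac : a ≠ c) (hbc : b ≠ c) (m : ℕ)
    (A B C : MvPowerSeries (Fin n) k) (h : A * X c ^ m = B * X b ^ m - C * X a ^ m) :
    ∃ p q : MvPowerSeries (Fin n) k, A = X a ^ m * p + X b ^ m * q := by
  have h0 : ∀ e : Fin n →₀ ℕ, e a < m → e b < m → coeff e A = 0 := by
    intro e ha hb
    have h1 : coeff (e + Finsupp.single c m) (A * X c ^ m) = coeff e A := by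
      rw [X_pow_eq, coeff_add_mul_monomial, mul_one]
    have h2 : coeff (e + Finsupp.single c m) (B * X b ^ m) = 0 := by
      rw [X_pow_eq, coeff_mul_monomial, if_neg]
      intro hle
      have := hle b
      rw [Finsupp.single_eq_same, Finsupp.add_apply, Finsupp.single_eq_of_ne hbc] at this
      omega
    have h3 : coeff (e + Finsupp.single c m) (C * X a ^ m) = 0 := by
      rw [X_pow_eq, coeff_mul_monomial, if_neg]
      intro hle
      have := hle a
      rw [Finsupp.single_eq_same, Finsupp.add_apply, Finsupp.single_eq_of_ne hac] at this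
      omega
    rw [← h1, h, map_sub, h2, h3, sub_zero]
  obtain ⟨p, hp⟩ := X_pow_dvd_iff.2 (fun (e : Fin n →₀ ℕ) (he : e a < m) =>
    (show coeff e (filt (fun e => e b < m) A) = 0 by
      rw [coeff_filt]
      split_ifs with h1
      · exact h0 e he h1
      · rfl))
  obtain ⟨q, hq⟩ := X_pow_dvd_iff.2 (fun (e : Fin n →₀ ℕ) (he : e b < m) =>
    (show coeff e (filt (fun e => ¬ e b < m) A) = 0 by
      rw [coeff_filt, if_neg (not_not.2 he)]))
  refine ⟨p, q, ?_⟩
  rw [← hp, ← hq]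
  ext e
  rw [map_add, coeff_filt, coeff_filt]
  split_ifs <;> simp

theorem loc_split (P : MvPowerSeries (Fin n) k) (a b c : Fin n) (hac : a ≠ c) (hbc : b ≠ c)
    (hP : P ≠ 0) (v s t : K) (hv : v ∈ loc K (P * (X a * X b)))
    (hs : s ∈ loc K (P * (X a * X c))) (ht : t ∈ loc K (P * (X b * X c))) (h : v = s - t) :
    ∃ p q : K, p ∈ loc K (P * X a) ∧ q ∈ loc K (P * X b) ∧ v = p + q := by
  obtain ⟨m1, h1⟩ := loc_pow _ _ hv
  obtain ⟨m2, h2⟩ := loc_pow _ _ hs
  obtain ⟨m3, h3⟩ := loc_pow _ _ ht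
  set m := max m1 (max m2 m3) with hm
  obtain ⟨A, hA⟩ := h1 m (le_max_left _ _)
  obtain ⟨B, hB⟩ := h2 m ((le_max_left _ _).trans (le_max_right _ _))
  obtain ⟨C, hC⟩ := h3 m ((le_max_right _ _).trans (le_max_right _ _))
  have h4 : A * X c ^ m = B * X b ^ m - C * X a ^ m := by
    rw [← algebraMap_inj (K := K), map_sub, map_mul, map_mul, map_mul, ← hA, ← hB, ← hC, h]
    simp only [map_mul, map_pow]
    ring
  obtain ⟨p, q, hpq⟩ := split_aux a b c hac hbc m A B C h4
  have hX : ∀ i : Fin n, algebraMap _ K (X i : MvPowerSeries (Fin n) k) ≠ 0 := by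
    intro i
    rw [Ne, ← map_zero (algebraMap (MvPowerSeries (Fin n) k) K), algebraMap_inj]
    exact (X_prime i).ne_zero
  have hP' : algebraMap _ K P ≠ 0 := by
    rw [Ne, ← map_zero (algebraMap (MvPowerSeries (Fin n) k) K), algebraMap_inj]
    exact hP
  refine ⟨algebraMap _ K q / algebraMap _ K (P * X a) ^ m,
    algebraMap _ K p / algebraMap _ K (P * X b) ^ m,
    ⟨m, q, ?_⟩, ⟨m, p, ?_⟩, ?_⟩
  · rw [div_mul_cancel₀]
    rw [map_mul]
    exact pow_ne_zero _ (mul_ne_zero hP' (hX a))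
  · rw [div_mul_cancel₀]
    rw [map_mul]
    exact pow_ne_zero _ (mul_ne_zero hP' (hX b))
  · have h5 : v * (algebraMap _ K P ^ m *
        (algebraMap _ K (X a : MvPowerSeries (Fin n) k) ^ m *
        algebraMap _ K (X b : MvPowerSeries (Fin n) k) ^ m)) =
        algebraMap _ K (X a : MvPowerSeries (Fin n) k) ^ m *
          algebraMap _ K p +
        algebraMap _ K (X b : MvPowerSeries (Fin n) k) ^ m *
          algebraMap _ K q := by
      have := hA
      rw [hpq] at this
      simp only [map_mul, map_add, map_pow, mul_pow] at this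
      exact this
    have ha := hX a
    have hb := hX b
    rw [map_mul, map_mul, mul_pow, mul_pow]
    have ha' := pow_ne_zero m (hX a)
    have hb' := pow_ne_zero m (hX b)
    have hP'' := pow_ne_zero m hP'
    rw [div_add_div _ _ (mul_ne_zero hP'' ha') (mul_ne_zero hP'' hb'),
      eq_div_iff (mul_ne_zero (mul_ne_zero hP'' ha') (mul_ne_zero hP'' hb'))]
    linear_combination (algebraMap _ K P ^ m) * h5

end

end Q54.HD
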