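import Mathlib

/-!
# Derivations of the field of fractions

A derivation of a domain `R` extends to its field of fractions `K` by the quotient rule.
-/

set_option autoImplicit false

namespace Q54.HD

section

variable {k R : Type} (K : Type) [CommRing k] [CommRing R] [Algebra k R] [Field K] [Algebra R K]
  [IsFractionRing R K]

/-- The quotient rule: `D (a / b) = (b D a - a D b) / b ^ 2`, where `u = a / b`. -/
noncomputable def fracDerFun (D : Derivation k R R) (u : K) : K :=
  (algebraMap R K (IsLocalization.sec (nonZeroDivisors R) u).2 *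
      algebraMap R K (D (IsLocalization.sec (nonZeroDivisors R) u).1) -
    algebraMap R K (IsLocalization.sec (nonZeroDivisors R) u).1 *
      algebraMap R K (D (IsLocalization.sec (nonZeroDivisors R) u).2)) /
    algebraMap R K (IsLocalization.sec (nonZeroDivisors R) u).2 ^ 2

variable [IsDomain R]

theorem fracDerFun_eq (D : Derivation k R R) (u : K) (a b : R) (hb : b ≠ 0)
    (h : u * algebraMap R K b = algebraMap R K a) :
    fracDerFun K D u = (algebraMap R K b * algebraMap R K (D a) -
      algebraMap R K a * algebraMap R K (D b)) / algebraMap R K b ^ 2 := by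
  have hs := IsLocalization.sec_spec (nonZeroDivisors R) u
  set a' := (IsLocalization.sec (nonZeroDivisors R) u).1 with ha'
  set b' : R := ((IsLocalization.sec (nonZeroDivisors R) u).2 : R) with hb'
  have hb'0 : b' ≠ 0 := nonZeroDivisors.ne_zero (IsLocalization.sec (nonZeroDivisors R) u).2.2
  have h1 : algebraMap R K b ≠ 0 := by
    simpa using hb
  have h2 : algebraMap R K b' ≠ 0 := by
    simpa using hb'0
  have h3 : algebraMap R K (a * b') = algebraMap R K (a' * b) := by
    rw [map_mul, map_mul, ← h, ← hs]
    ring
  have h4 : a * b' = a' * b := IsFractionRing.injective R K h3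
  have h5 : algebraMap R K (D (a * b')) = algebraMap R K (D (a' * b)) := by rw [h4]
  simp only [Derivation.leibniz, smul_eq_mul, map_add, map_mul] at h5
  rw [map_mul, map_mul] at h3
  rw [fracDerFun, div_eq_div_iff (pow_ne_zero 2 h2) (pow_ne_zero 2 h1)]
  linear_combination (-algebraMap R K b * algebraMap R K b') * h5 +
    (algebraMap R K (D b) * algebraMap R K b' +
      algebraMap R K (D b') * algebraMap R K b) * h3

variable {K}

theorem exists_rep (u : K) : ∃ a b : R, b ≠ 0 ∧ u * algebraMap R K b = algebraMap R K a :=
  ⟨(IsLocalization.sec (nonZeroDivisors R) u).1, (IsLocalization.sec (nonZeroDivisors R) u).2,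
    nonZeroDivisors.ne_zero (IsLocalization.sec (nonZeroDivisors R) u).2.2,
    IsLocalization.sec_spec (nonZeroDivisors R) u⟩

theorem fracDerFun_add (D : Derivation k R R) (u v : K) :
    fracDerFun K D (u + v) = fracDerFun K D u + fracDerFun K D v := by
  obtain ⟨a, b, hb, h⟩ := exists_rep (R := R) u
  obtain ⟨c, d, hd, h'⟩ := exists_rep (R := R) v
  have hb1 : algebraMap R K b ≠ 0 := by simpa using hb
  have hd1 : algebraMap R K d ≠ 0 := by simpa using hd
  rw [fracDerFun_eq K D u a b hb h, fracDerFun_eq K D v c d hd h',
    fracDerFun_eq K D (u + v) (a * d + c * b) (b * d) (mul_ne_zero hb hd) (by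
      rw [map_add, map_mul, map_mul, map_mul, ← h, ← h']; ring)]
  simp only [Derivation.leibniz, smul_eq_mul, map_add, map_mul]
  field_simp
  ring

theorem fracDerFun_mul (D : Derivation k R R) (u v : K) :
    fracDerFun K D (u * v) = u * fracDerFun K D v + v * fracDerFun K D u := by
  obtain ⟨a, b, hb, h⟩ := exists_rep (R := R) u
  obtain ⟨c, d, hd, h'⟩ := exists_rep (R := R) v
  have hb1 : algebraMap R K b ≠ 0 := by simpa using hb
  have hd1 : algebraMap R K d ≠ 0 := by simpa using hd
  have hu : u = algebraMap R K a / algebraMap R K b := by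
    rw [eq_div_iff hb1, h]
  have hv : v = algebraMap R K c / algebraMap R K d := by
    rw [eq_div_iff hd1, h']
  rw [fracDerFun_eq K D u a b hb h, fracDerFun_eq K D v c d hd h',
    fracDerFun_eq K D (u * v) (a * c) (b * d) (mul_ne_zero hb hd) (by
      rw [map_mul, map_mul, ← h, ← h']; ring)]
  simp only [Derivation.leibniz, smul_eq_mul, map_add, map_mul, hu, hv]
  field_simp
  ring

variable (K) in
/-- The extension of a derivation of a domain `R` to its field of fractions `K`. -/
noncomputable def fracDer (D : Derivation k R R) : Derivation ℤ K K :=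
  Derivation.mk' (AddMonoidHom.mk' (fracDerFun K D) (fracDerFun_add D)).toIntLinearMap
    (fracDerFun_mul D)

theorem fracDer_apply (D : Derivation k R R) (u : K) : fracDer K D u = fracDerFun K D u := rfl

@[simp]
theorem fracDer_algebraMap (D : Derivation k R R) (a : R) :
    fracDer K D (algebraMap R K a) = algebraMap R K (D a) := by
  rw [fracDer_apply, fracDerFun_eq K D _ a 1 one_ne_zero (by simp)]
  simp

/-- A derivation of the field of fractions that vanishes on the ring is zero. -/
theorem der_eq_zero (D : Derivation ℤ K K) (h : ∀ a : R, D (algebraMap R K a) = 0) (u : K) :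
    D u = 0 := by
  obtain ⟨a, b, hb, hu⟩ := exists_rep (R := R) u
  have h1 := congrArg D hu
  rw [Derivation.leibniz, h, h, smul_zero, zero_add, smul_eq_mul] at h1
  exact (mul_eq_zero.1 h1).resolve_left (by simpa using hb)

theorem fracDer_comm (D E : Derivation k R R) (h : ∀ a, D (E a) = E (D a)) (u : K) :
    fracDer K D (fracDer K E u) = fracDer K E (fracDer K D u) := by
  have h1 := der_eq_zero (R := R) ⁅fracDer K D, fracDer K E⁆ (fun a => by
    rw [Derivation.commutator_apply, fracDer_algebraMap, fracDer_algebraMap, fracDer_algebraMap,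
      fracDer_algebraMap, h, sub_self]) u
  rwa [Derivation.commutator_apply, sub_eq_zero] at h1

end

end Q54.HD
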