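import Pool.Agent.Q54.HD.Tot

/-!
# The differential `d_2` is not zero
-/

set_option autoImplicit false
set_option linter.unusedSectionVars false
set_option linter.unusedTactic false
set_option linter.unreachableTactic false

open MvPowerSeries

namespace Q54.HD

section

variable {k : Type} [Field k] {K : Type} [Field K] [Algebra (MvPowerSeries (Fin 7) k) K]
  [IsFractionRing (MvPowerSeries (Fin 7) k) K]

theorem tot_alpha_not_subset (S : Finset (Fin 4)) (J : Finset (Fin 7))
    (h : ¬ {3, 4, 5, 6} ⊆ J) : tot (fun j : Fin 7 => ddxD k K j) (alpha k K) S J = 0 := by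
  rw [tot_apply, cech_apply, deRham_apply, Finset.sum_eq_zero, Finset.sum_eq_zero, mul_zero,
    add_zero]
  · intro j _
    rw [alpha_zero _ _ (fun h' => h (h'.trans (Finset.erase_subset _ _))), map_zero, mul_zero]
  · intro i _
    rw [alpha_zero _ _ h, mul_zero]

set_option maxRecDepth 20000 in
theorem J_cases : ∀ J : Finset (Fin 7), ({3, 4, 5, 6} : Finset (Fin 7)) ⊆ J → J.card < 6 →
    J = {3, 4, 5, 6} ∨ J = {0, 3, 4, 5, 6} ∨ J = {1, 3, 4, 5, 6} ∨ J = {2, 3, 4, 5, 6} := by
  decide

theorem S_cases3 : ∀ S : Finset (Fin 4), S.card = 3 →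
    S = {1, 2, 3} ∨ S = {0, 2, 3} ∨ S = {0, 1, 3} ∨ S = {0, 1, 2} := by
  decide

theorem S_cases4 : ∀ S : Finset (Fin 4), S.card = 4 → S = Finset.univ := by
  decide

theorem tot_alpha_mem_fil : tot (fun j : Fin 7 => ddxD k K j) (alpha k K) ∈ fil K 7 4 6 := by
  intro S J hJ
  by_cases hdeg : (S.card : ℤ) + J.card = 7 + 1
  swap
  · exact tot_mem_deg (ddxD k K) 7 (alpha k K) alpha_mem_deg S J hdeg
  by_cases h0 : ({3, 4, 5, 6} : Finset (Fin 7)) ⊆ J
  swap
  · exact tot_alpha_not_subset S J h0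
  rcases J_cases J h0 (by exact_mod_cast hJ) with rfl | rfl | rfl | rfl
  · have hS : S.card = 4 := by
      have : ({3, 4, 5, 6} : Finset (Fin 7)).card = 4 := rfl
      omega
    rw [S_cases4 S hS]
    exact tot_alpha_univ
  · have hS : S.card = 3 := by
      have : ({0, 3, 4, 5, 6} : Finset (Fin 7)).card = 5 := rfl
      omega
    rcases S_cases3 S hS with rfl | rfl | rfl | rfl
    · exact tot_alpha_123_0
    · exact tot_alpha_023_0
    · exact tot_alpha_013_0
    · exact tot_alpha_012_0
  · have hS : S.card = 3 := by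
      have : ({1, 3, 4, 5, 6} : Finset (Fin 7)).card = 5 := rfl
      omega
    rcases S_cases3 S hS with rfl | rfl | rfl | rfl
    · exact tot_alpha_123_1
    · exact tot_alpha_023_1
    · exact tot_alpha_013_1
    · exact tot_alpha_012_1
  · have hS : S.card = 3 := by
      have : ({2, 3, 4, 5, 6} : Finset (Fin 7)).card = 5 := rfl
      omega
    rcases S_cases3 S hS with rfl | rfl | rfl | rfl
    · exact tot_alpha_123_2
    · exact tot_alpha_023_2
    · exact tot_alpha_013_2
    · exact tot_alpha_012_2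

theorem alpha_mem_Z : alpha k K ∈ (cechDeRham K (geqs k)).Z 2 4 7 := by
  rw [FilteredComplex.mem_Z]
  exact ⟨⟨alpha_mem_cochains, alpha_mem_deg⟩, alpha_mem_fil, tot_alpha_mem_fil⟩

theorem not_dvd_qf : ¬ X 3 ∣ qf k := by
  rw [X_dvd_iff]
  push Not
  refine ⟨Finsupp.single 1 1 + Finsupp.single 4 1, ?_, ?_⟩
  · rw [Finsupp.add_apply, Finsupp.single_eq_of_ne (by decide),
      Finsupp.single_eq_of_ne (by decide), add_zero]
  · rw [qf, map_add, map_add, coeff_X_mul_zero, coeff_X_mul_add, coeff_X_mul_zero, coeff_X,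
      if_pos rfl, zero_add, add_zero]
    · exact one_ne_zero
    · rw [Finsupp.add_apply, Finsupp.single_eq_of_ne (by decide),
        Finsupp.single_eq_of_ne (by decide), add_zero]
    · rw [Finsupp.add_apply, Finsupp.single_eq_of_ne (by decide),
        Finsupp.single_eq_of_ne (by decide), add_zero]

theorem tau_zero (j : Fin 7) (hj : 3 ≤ j) :
    tot (fun j : Fin 7 => ddxD k K j) (alpha k K) {0, 1} (Finset.univ.erase j) = 0 := by
  apply tot_alpha_not_subset
  intro h
  have hmem : j ∈ ({3, 4, 5, 6} : Finset (Fin 7)) := by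
    revert j
    decide
  exact Finset.notMem_erase j _ (h hmem)

theorem tau_mem (j : Fin 7) :
    tot (fun j : Fin 7 => ddxD k K j) (alpha k K) {0, 1} (Finset.univ.erase j) ∈ loc K (X 6 * qf k) := by
  have hf := qf_ne_zero (k := k)
  have hx := X_ne_zero' (k := k)
  have h3 : qf k ^ 3 * X 6 ≠ 0 := mul_ne_zero (pow_ne_zero 3 hf) (hx 6)
  have hd : qf k ^ 3 * X 6 ∣ (X 6 * qf k) ^ 3 := ⟨X 6 ^ 2, by ring⟩
  by_cases hj : 3 ≤ j
  · rw [tau_zero j hj]
    exact zero_mem _
  · have hj' : j = 0 ∨ j = 1 ∨ j = 2 := by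
      revert j
      decide
    rcases hj' with rfl | rfl | rfl
    · rw [tot_alpha_01_0]
      have := loc_div (K := K) _ (2 * X 0) _ 3 h3 hd
      rwa [map_mul, map_ofNat, map_mul, map_pow] at this
    · rw [tot_alpha_01_1]
      refine neg_mem ?_
      have := loc_div (K := K) _ (2 * X 1) _ 3 h3 hd
      rwa [map_mul, map_ofNat, map_mul, map_pow] at this
    · rw [tot_alpha_01_2]
      have := loc_div (K := K) _ (2 * X 2) _ 3 h3 hd
      rwa [map_mul, map_ofNat, map_mul, map_pow] at this

theorem wedge_tau : ∑ j, (sgn j Finset.univ : K) * (dlf k K j *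
    tot (fun j : Fin 7 => ddxD k K j) (alpha k K) {0, 1} (Finset.univ.erase j)) =
      2 / (ia k K (qf k) ^ 3 * ia k K (X 6)) := by
  have hf := f_ne_zero (k := k) (K := K)
  have hz := z_ne_zero (k := k) (K := K)
  have hfe := f_eq (k := k) (K := K)
  rw [Fin.sum_univ_seven, tau_zero 3 (by decide), tau_zero 4 (by decide), tau_zero 5 (by decide),
    tau_zero 6 (by decide), tot_alpha_01_0, tot_alpha_01_1, tot_alpha_01_2]
  have e0 : dlf k K 0 = ia k K (X 3) / ia k K (qf k) := by
    rw [dlf]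
    exact congrArg (fun t => ia k K t / ia k K (qf k)) (pderiv_qf_vy 0)
  have e1 : dlf k K 1 = ia k K (X 4) / ia k K (qf k) := by
    rw [dlf]
    exact congrArg (fun t => ia k K t / ia k K (qf k)) (pderiv_qf_vy 1)
  have e2 : dlf k K 2 = ia k K (X 5) / ia k K (qf k) := by
    rw [dlf]
    exact congrArg (fun t => ia k K t / ia k K (qf k)) (pderiv_qf_vy 2)
  rw [e0, e1, e2]
  have s0 : sgn (0 : Fin 7) Finset.univ = 1 := by rw [sgn_eq_ite, if_pos (by decide)]
  have s1 : sgn (1 : Fin 7) Finset.univ = -1 := by rw [sgn_eq_ite, if_neg (by decide)]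
  have s2 : sgn (2 : Fin 7) Finset.univ = 1 := by rw [sgn_eq_ite, if_pos (by decide)]
  rw [s0, s1, s2]
  generalize ia k K (qf k) = f at *
  generalize ia k K (X 6) = z at *
  generalize ia k K (X 3) = x0 at *
  generalize ia k K (X 4) = x1 at *
  generalize ia k K (X 5) = x2 at *
  generalize ia k K (X 0) = y0 at *
  generalize ia k K (X 1) = y1 at *
  generalize ia k K (X 2) = y2 at *
  push_cast
  field_simp
  linear_combination -2 * hfe

theorem tot_alpha_not_mem_B [CharZero k] :
    tot (fun j : Fin 7 => ddxD k K j) (alpha k K) ∉ (cechDeRham K (geqs k)).B 2 (4 + 2) (7 + 1) := by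
  intro hB
  obtain ⟨w, hw, t, ⟨ξ, hξ, rfl⟩, hsum⟩ := AddSubgroup.mem_sup.1 hB
  have hw7 : w ∈ fil K 7 4 7 := ((FilteredComplex.mem_Z _).1 hw).2.1
  obtain ⟨⟨hξL, hξdeg⟩, hξ5, hξ6⟩ := (FilteredComplex.mem_Z _).1 hξ
  replace hξL : ∀ S J, ξ S J ∈ loc K (∏ i ∈ S, geqs k i) := hξL
  change ξ ∈ fil K 7 4 5 at hξ5
  change tot (fun j : Fin 7 => ddxD k K j) ξ ∈ fil K 7 4 6 at hξ6
  change w + tot (fun j : Fin 7 => ddxD k K j) ξ = tot (fun j : Fin 7 => ddxD k K j) (alpha k K) at hsum
  -- the Cech cocycle condition in form degree 5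
  have hcoc : ∀ S J, J.card = 5 → cech ξ S J = 0 := by
    intro S J hJ
    have h1 := hξ6 S J (by rw [hJ]; norm_num)
    rw [tot_apply] at h1
    have h2 : deRham (fun j : Fin 7 => ddxD k K j) ξ S J = 0 := by
      rw [deRham_apply]
      refine Finset.sum_eq_zero fun j hj => ?_
      rw [hξ5 S (J.erase j), map_zero, mul_zero]
      rw [Finset.card_erase_of_mem hj, hJ]
      norm_num
    rwa [h2, mul_zero, add_zero] at h1
  have L01 : ∀ J, ξ {0, 1} J ∈ loc K (qf k * X 6 * X 3) := by
    intro J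
    have := hξL {0, 1} J
    rw [prod_geqs] at this
    simp (decide := true) only [if_true, if_false, mul_one] at this
    rwa [← mul_assoc] at this
  have L02 : ∀ J, ξ {0, 2} J ∈ loc K (qf k * X 6 * X 4) := by
    intro J
    have := hξL {0, 2} J
    rw [prod_geqs] at this
    simp (decide := true) only [if_true, if_false, mul_one] at this
    rwa [← mul_assoc] at this
  have L12 : ∀ J, ξ {1, 2} J ∈ loc K (X 6 * X 6 * (X 3 * X 4) : MvPowerSeries (Fin 7) k) := by
    intro J
    have := hξL {1, 2} J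
    rw [prod_geqs] at this
    simp (decide := true) only [if_true, if_false, mul_one, one_mul] at this
    rwa [mul_mul_mul_comm] at this
  have L13 : ∀ J, ξ {1, 3} J ∈ loc K (X 6 * X 6 * (X 3 * X 5) : MvPowerSeries (Fin 7) k) := by
    intro J
    have := hξL {1, 3} J
    rw [prod_geqs] at this
    simp (decide := true) only [if_true, if_false, mul_one, one_mul] at this
    rwa [mul_mul_mul_comm] at this
  have L23 : ∀ J, ξ {2, 3} J ∈ loc K (X 6 * X 6 * (X 4 * X 5) : MvPowerSeries (Fin 7) k) := by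
    intro J
    have := hξL {2, 3} J
    rw [prod_geqs] at this
    simp (decide := true) only [if_true, if_false, mul_one, one_mul] at this
    rwa [mul_mul_mul_comm] at this
  have L0 : ∀ J, ξ {0} J ∈ loc K (qf k) := by
    intro J
    have := hξL {0} J
    rw [prod_geqs] at this
    simpa (decide := true) only [if_true, if_false, mul_one, one_mul] using this
  have L1 : ∀ J, ξ {1} J ∈ loc K (X 6 * X 3 : MvPowerSeries (Fin 7) k) := by
    intro J
    have := hξL {1} J
    rw [prod_geqs] at this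
    simpa (decide := true) only [if_true, if_false, mul_one, one_mul] using this
  have hp : ∀ J, J.card = 5 → ∃ p : K, p ∈ loc K (X 6 * X 3 : MvPowerSeries (Fin 7) k) ∧
      ξ {0, 1} J + p ∈ loc K (qf k * X 6) := by
    intro J hJ
    have c1 := hcoc {1, 2, 3} J hJ
    have c2 := hcoc {0, 1, 2} J hJ
    rw [cech_apply, sum4] at c1 c2
    simp (decide := true) only [if_true, if_false, sgn_eq_ite, add_zero, zero_add] at c1 c2
    have e1 : ({1, 2, 3} : Finset (Fin 4)).erase 1 = {2, 3} := by decide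
    have e2 : ({1, 2, 3} : Finset (Fin 4)).erase 2 = {1, 3} := by decide
    have e3 : ({1, 2, 3} : Finset (Fin 4)).erase 3 = {1, 2} := by decide
    have e4 : ({0, 1, 2} : Finset (Fin 4)).erase 0 = {1, 2} := by decide
    have e5 : ({0, 1, 2} : Finset (Fin 4)).erase 1 = {0, 2} := by decide
    have e6 : ({0, 1, 2} : Finset (Fin 4)).erase 2 = {0, 1} := by decide
    rw [e1, e2, e3] at c1
    rw [e4, e5, e6] at c2
    push_cast at c1 c2
    obtain ⟨p, q, hp, hq, hpq⟩ := loc_split (X 6 * X 6 : MvPowerSeries (Fin 7) k) 3 4 5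
      (by decide) (by decide) (mul_ne_zero (X_ne_zero' 6) (X_ne_zero' 6)) _ _ _ (L12 J) (L13 J)
      (L23 J) (by linear_combination c1)
    refine ⟨p, loc_le_of_dvd_pow _ _ 2 ⟨X 3, by ring⟩ p hp, ?_⟩
    refine loc_inter (qf k * X 6) (X 4) 3 (X_not_dvd_X 3 4 (by decide)) _
      (add_mem (L01 J) (loc_le_of_dvd_pow _ _ 2 ⟨qf k ^ 2 * X 3, by ring⟩ p hp)) ?_
    have h2 : ξ {0, 1} J + p = ξ {0, 2} J - q := by linear_combination c2 - hpq
    rw [h2]
    exact sub_mem (L02 J) (loc_le_of_dvd_pow _ _ 2 ⟨qf k ^ 2 * X 4, by ring⟩ q hq)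
  choose! p hp1 hp2 using hp
  have hcard : ∀ j i : Fin 7, i ∈ Finset.univ.erase j →
      ((Finset.univ.erase j).erase i).card = 5 := by
    intro j i hi
    rw [Finset.card_erase_of_mem hi, Finset.card_erase_of_mem (Finset.mem_univ j)]
    rfl
  -- the value at `{0, 1}` in form degree 6
  have hval : ∀ j, tot (fun j : Fin 7 => ddxD k K j) (alpha k K) {0, 1} (Finset.univ.erase j) =
      ξ {1} (Finset.univ.erase j) - ξ {0} (Finset.univ.erase j) +
        ∑ i ∈ Finset.univ.erase j, (sgn i (Finset.univ.erase j) : K) *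
          ddxD k K i (ξ {0, 1} ((Finset.univ.erase j).erase i)) := by
    intro j
    have h1 := congrFun (congrFun hsum {0, 1}) (Finset.univ.erase j)
    rw [← h1]
    change w {0, 1} (Finset.univ.erase j) + tot (fun j : Fin 7 => ddxD k K j) ξ {0, 1} (Finset.univ.erase j) = _
    rw [hw7 {0, 1} (Finset.univ.erase j) (by
      rw [Finset.card_erase_of_mem (Finset.mem_univ j)]
      decide), zero_add, tot_apply, cech_apply, deRham_apply,
      Finset.sum_pair (by decide : (0 : Fin 4) ≠ 1)]
    have e1 : ({0, 1} : Finset (Fin 4)).erase 0 = {1} := by decide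
    have e2 : ({0, 1} : Finset (Fin 4)).erase 1 = {0} := by decide
    have e3 : ({0, 1} : Finset (Fin 4)).card = 2 := by decide
    have s0 : sgn (0 : Fin 4) {0, 1} = 1 := by rw [sgn_eq_ite, if_pos (by decide)]
    have s1 : sgn (1 : Fin 4) {0, 1} = -1 := by rw [sgn_eq_ite, if_neg (by decide)]
    rw [e1, e2, e3, s0, s1]
    push_cast
    ring
  apply core (k := k) (fun j => tot (fun j : Fin 7 => ddxD k K j) (alpha k K) {0, 1} (Finset.univ.erase j))
    (fun j => tot (fun j : Fin 7 => ddxD k K j) (alpha k K) {0, 1} (Finset.univ.erase j) -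
      (∑ i ∈ Finset.univ.erase j, (sgn i (Finset.univ.erase j) : K) *
        ddxD k K i (ξ {0, 1} ((Finset.univ.erase j).erase i) +
          p ((Finset.univ.erase j).erase i))) + ξ {0} (Finset.univ.erase j))
    (fun j => ξ {0} (Finset.univ.erase j)) (fun J => ξ {0, 1} J + p J)
  · intro j
    refine loc_inter (X 6) (qf k) 3 not_dvd_qf _ ?_ ?_
    · rw [hval j]
      have h1 : ξ {1} (Finset.univ.erase j) - ξ {0} (Finset.univ.erase j) +
          ∑ i ∈ Finset.univ.erase j, (sgn i (Finset.univ.erase j) : K) *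
            ddxD k K i (ξ {0, 1} ((Finset.univ.erase j).erase i)) -
          (∑ i ∈ Finset.univ.erase j, (sgn i (Finset.univ.erase j) : K) *
            ddxD k K i (ξ {0, 1} ((Finset.univ.erase j).erase i) +
              p ((Finset.univ.erase j).erase i))) + ξ {0} (Finset.univ.erase j) =
          ξ {1} (Finset.univ.erase j) -
          ∑ i ∈ Finset.univ.erase j, (sgn i (Finset.univ.erase j) : K) *
            ddxD k K i (p ((Finset.univ.erase j).erase i)) := by
        simp only [map_add, mul_add, Finset.sum_add_distrib]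
        ring
      rw [h1]
      refine sub_mem (L1 _) (AddSubgroup.sum_mem _ fun i hi => int_mem _ _
        (loc_ddx _ _ _ (hp1 _ (hcard j i hi))))
    · refine add_mem (sub_mem (tau_mem j)
        (AddSubgroup.sum_mem _ fun i hi => int_mem _ _ (loc_ddx _ _ _ ?_))) ?_
      · rw [mul_comm (X 6) (qf k)]
        exact hp2 _ (hcard j i hi)
      · rw [mul_comm (X 6) (qf k)]
        exact loc_mono _ _ _ (L0 _)
  · intro j
    exact L0 _
  · intro J hJ
    exact hp2 J hJ
  · intro j
    ring
  · exact wedge_tau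

end

end Q54.HD
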