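import Pool.Agent.Q54.HD.Defs

/-!
# The pages of the spectral sequence, spelled out

See `Pool.Agent.Q54.HD.Defs` for the Cech-de Rham double complex `C^q(g; Ω^p)` and its total complex.
Its cochains of degree `m` are the families `c S J` such that `c S J ∈ R[1/g_S]`, and `c S J = 0`
unless `#S + #J = m`. The subgroup `F^p` consists of the cochains such that `c S J = 0` if `#J < p`.
The spectral sequence of this filtered complex has the terms `E_r^{p,m-p} = Z_r^p / B_r^p` (in
degree `m`), where `Z_r^p = {c ∈ F^p | D c ∈ F^{p+r}}` and `B_r^p = Z_{r-1}^{p+1} + D Z_{r-1}^{p-r+1}`,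
and its differentials `d_r : E_r^{p,m-p} → E_r^{p+r,m-p-r+1}` are induced by `D`.
-/

set_option autoImplicit false

namespace Q54.HD

section

variable {k : Type} [Field k] {n s : ℕ} (K : Type) [Field K]
  [Algebra (MvPowerSeries (Fin n) k) K] [IsFractionRing (MvPowerSeries (Fin n) k) K]

omit [IsFractionRing (MvPowerSeries (Fin n) k) K] in
/-- The family `c` is a cochain of degree `m` of the total complex of the Cech-de Rham double
complex of `g`: `c S J ∈ R[1/g_S]`, and `c S J = 0` unless `#S + #J = m`. -/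
def IsCochainDeg (g : Fin s → MvPowerSeries (Fin n) k) (m : ℤ)
    (c : Finset (Fin s) → Finset (Fin n) → K) : Prop :=
  (∀ S J, InLoc K (∏ i ∈ S, g i) (c S J)) ∧ IsDeg m c

/-- The condition `c ∈ Z_r^p`, in degree `m`: `c` is a cochain of degree `m` in `F^p`, and
`D c ∈ F^{p+r}`. -/
def InZ (g : Fin s → MvPowerSeries (Fin n) k) (r p m : ℤ)
    (c : Finset (Fin s) → Finset (Fin n) → K) : Prop :=
  IsCochainDeg K g m c ∧ IsFil p c ∧ IsFil (p + r) (tot (ddx k K) c)

/-- The condition `c ∈ B_r^p = Z_{r-1}^{p+1} + D Z_{r-1}^{p-r+1}`, in degree `m`. -/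
def InB (g : Fin s → MvPowerSeries (Fin n) k) (r p m : ℤ)
    (c : Finset (Fin s) → Finset (Fin n) → K) : Prop :=
  ∃ a b : Finset (Fin s) → Finset (Fin n) → K, InZ K g (r - 1) (p + 1) m a ∧
    InZ K g (r - 1) (p - r + 1) (m - 1) b ∧ ∀ S J, c S J = a S J + tot (ddx k K) b S J

/-- The differential `d_r : E_r^{p,m-p} → E_r^{p+r,m-p-r+1}`, induced by `D`, of the local Hodge-de
Rham homology spectral sequence is zero: `D` maps `Z_r^p` into `B_r^{p+r}`. -/
def DifferentialIsZero (g : Fin s → MvPowerSeries (Fin n) k) (r p m : ℤ) : Prop :=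
  ∀ c : Finset (Fin s) → Finset (Fin n) → K, InZ K g r p m c →
    InB K g r (p + r) (m + 1) (tot (ddx k K) c)

/-- The local Hodge-de Rham homology spectral sequence degenerates at `E_2`: all the differentials
`d_r` with `r ≥ 2` are zero. -/
def DegeneratesAtE2 (g : Fin s → MvPowerSeries (Fin n) k) : Prop :=
  ∀ r p m : ℤ, 2 ≤ r → DifferentialIsZero K g r p m

variable {K}

theorem inZ_iff (g : Fin s → MvPowerSeries (Fin n) k) (r p m : ℤ)
    (c : Finset (Fin s) → Finset (Fin n) → K) :
    InZ K g r p m c ↔ c ∈ (cechDeRham K g).Z r p m := by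
  rw [FilteredComplex.mem_Z]
  exact Iff.rfl

theorem inB_iff (g : Fin s → MvPowerSeries (Fin n) k) (r p m : ℤ)
    (c : Finset (Fin s) → Finset (Fin n) → K) :
    InB K g r p m c ↔ c ∈ (cechDeRham K g).B r p m := by
  constructor
  · rintro ⟨a, b, ha, hb, h⟩
    refine AddSubgroup.mem_sup.2 ⟨a, (inZ_iff _ _ _ _ _).1 ha, (cechDeRham K g).D b,
      ⟨b, (inZ_iff _ _ _ _ _).1 hb, rfl⟩, ?_⟩
    funext S J
    exact (h S J).symm
  · intro h
    obtain ⟨a, ha, _, ⟨b, hb, rfl⟩, h⟩ := AddSubgroup.mem_sup.1 h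
    refine ⟨a, b, (inZ_iff _ _ _ _ _).2 ha, (inZ_iff _ _ _ _ _).2 hb, fun S J => ?_⟩
    rw [← h]
    rfl

/-- `DifferentialIsZero` says that the differential of the spectral sequence is zero. -/
theorem differentialIsZero_iff (g : Fin s → MvPowerSeries (Fin n) k) (r p m : ℤ) :
    DifferentialIsZero K g r p m ↔ (cechDeRham K g).d r p m = 0 := by
  constructor
  · intro h
    ext c
    rw [AddMonoidHom.comp_apply, QuotientAddGroup.mk'_apply, FilteredComplex.d,
      QuotientAddGroup.map_mk]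
    exact (QuotientAddGroup.eq_zero_iff _).2
      ((inB_iff _ _ _ _ _).1 (h c ((inZ_iff _ _ _ _ _).2 c.2)))
  · intro h c hc
    have h1 : (cechDeRham K g).d r p m (QuotientAddGroup.mk ⟨c, (inZ_iff _ _ _ _ _).1 hc⟩) = 0 := by
      rw [h]
      rfl
    rw [FilteredComplex.d, QuotientAddGroup.map_mk, QuotientAddGroup.eq_zero_iff] at h1
    exact (inB_iff _ _ _ _ _).2 h1

end

end Q54.HD
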