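import Pool.Agent.Q54.HD.Defs

/-!
# A linear functional on power series in seven variables

The variables are `y_i = X (vy i)`, `x_i = X (vx i)` and `z = X 6`. For a power series `h` we
consider `T M ν h = ∑_{|a| = M} a! c_a`, where `c_a` is the coefficient of `x^a y^a z^ν` in `h`.
-/

set_option autoImplicit false

open MvPowerSeries

namespace Q54.HD

def vy : Fin 3 → Fin 7 := ![0, 1, 2]

def vx : Fin 3 → Fin 7 := ![3, 4, 5]

/-- the exponent of `y^a x^b z^ν` -/
noncomputable def ex (a b : Fin 3 → ℕ) (ν : ℕ) : Fin 7 →₀ ℕ :=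
  Finsupp.equivFunOnFinite.symm ![a 0, a 1, a 2, b 0, b 1, b 2, ν]

theorem ex_apply (a b : Fin 3 → ℕ) (ν : ℕ) (j : Fin 7) :
    ex a b ν j = ![a 0, a 1, a 2, b 0, b 1, b 2, ν] j := rfl

theorem ex_vy (a b : Fin 3 → ℕ) (ν : ℕ) (i : Fin 3) : ex a b ν (vy i) = a i := by
  fin_cases i <;> rfl

theorem ex_vx (a b : Fin 3 → ℕ) (ν : ℕ) (i : Fin 3) : ex a b ν (vx i) = b i := by
  fin_cases i <;> rfl

theorem ex_z (a b : Fin 3 → ℕ) (ν : ℕ) : ex a b ν 6 = ν := rfl

theorem ex_add_vy (a b : Fin 3 → ℕ) (ν : ℕ) (i : Fin 3) :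
    ex a b ν + Finsupp.single (vy i) 1 = ex (a + Pi.single i 1) b ν := by
  ext j
  rw [Finsupp.add_apply]
  fin_cases i <;> fin_cases j <;> simp [ex, vy, Finsupp.single_apply]

theorem ex_add_vx (a b : Fin 3 → ℕ) (ν : ℕ) (i : Fin 3) :
    ex a b ν + Finsupp.single (vx i) 1 = ex a (b + Pi.single i 1) ν := by
  ext j
  rw [Finsupp.add_apply]
  fin_cases i <;> fin_cases j <;> simp [ex, vx, Finsupp.single_apply]

theorem ex_add_z (a b : Fin 3 → ℕ) (ν : ℕ) :
    ex a b ν + Finsupp.single 6 1 = ex a b (ν + 1) := by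
  ext j
  rw [Finsupp.add_apply]
  fin_cases j <;> simp [ex, Finsupp.single_apply]

variable {k : Type} [Field k]

theorem coeff_X_mul_add (j : Fin 7) (e : Fin 7 →₀ ℕ) (h : MvPowerSeries (Fin 7) k) :
    coeff (e + Finsupp.single j 1) (X j * h) = coeff e h := by
  rw [X, add_comm, coeff_add_monomial_mul, one_mul]

theorem coeff_X_mul_zero (j : Fin 7) (e : Fin 7 →₀ ℕ) (he : e j = 0)
    (h : MvPowerSeries (Fin 7) k) : coeff e (X j * h) = 0 := by
  rw [X, coeff_monomial_mul, if_neg]
  intro hle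
  have := hle j
  rw [Finsupp.single_eq_same] at this
  omega

/-- `T M ν h = ∑_{|a| = M} a! c_a`, where `c_a` is the coefficient of `x^a y^a z^ν` in `h` -/
noncomputable def T (M ν : ℕ) : MvPowerSeries (Fin 7) k →ₗ[k] k :=
  ∑ a ∈ Finset.Nat.antidiagonalTuple 3 M, (∏ i, ((a i).factorial : k)) • coeff (ex a a ν)

theorem T_apply (M ν : ℕ) (h : MvPowerSeries (Fin 7) k) :
    T M ν h = ∑ a ∈ Finset.Nat.antidiagonalTuple 3 M,
      (∏ i, ((a i).factorial : k)) * coeff (ex a a ν) h := by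
  rw [T, LinearMap.sum_apply]
  rfl

theorem sum_shift (M : ℕ) (i : Fin 3) (φ : (Fin 3 → ℕ) → k) (hφ : ∀ a, a i = 0 → φ a = 0) :
    ∑ a ∈ Finset.Nat.antidiagonalTuple 3 (M + 1), φ a =
      ∑ b ∈ Finset.Nat.antidiagonalTuple 3 M, φ (b + Pi.single i 1) := by
  symm
  refine Finset.sum_of_injOn (fun b => b + Pi.single i 1) ?_ ?_ ?_ ?_
  · intro b _ b' _ h
    exact add_right_cancel h
  · intro b hb
    rw [Finset.mem_coe, Finset.Nat.mem_antidiagonalTuple] at hb ⊢
    simp only [Pi.add_apply, Finset.sum_add_distrib, hb, Finset.sum_pi_single',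
      Finset.mem_univ, if_true]
  · intro a ha h
    apply hφ
    by_contra h0
    apply h
    refine ⟨a - Pi.single i 1, ?_, ?_⟩
    · rw [Finset.mem_coe, Finset.Nat.mem_antidiagonalTuple]
      rw [Finset.Nat.mem_antidiagonalTuple] at ha
      have h1 : a = (a - Pi.single i 1) + Pi.single i 1 := by
        funext j
        by_cases hj : j = i
        · subst hj
          simp only [Pi.add_apply, Pi.sub_apply, Pi.single_eq_same]
          omega
        · simp [Pi.single_eq_of_ne hj]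
      rw [h1] at ha
      simp only [Pi.add_apply, Finset.sum_add_distrib, Finset.sum_pi_single',
        Finset.mem_univ, if_true] at ha
      omega
    · funext j
      by_cases hj : j = i
      · subst hj
        simp only [Pi.add_apply, Pi.sub_apply, Pi.single_eq_same]
        omega
      · simp [Pi.single_eq_of_ne hj]
  · intro b _
    rfl

theorem prod_factorial_add (b : Fin 3 → ℕ) (i : Fin 3) :
    (∏ j, (((b + Pi.single i 1 : Fin 3 → ℕ) j).factorial : k)) =
      (∏ j, ((b j).factorial : k)) * (b i + 1) := by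
  rw [← Finset.mul_prod_erase Finset.univ _ (Finset.mem_univ i),
    ← Finset.mul_prod_erase Finset.univ (fun j => ((b j).factorial : k)) (Finset.mem_univ i)]
  have h1 : ∏ j ∈ Finset.univ.erase i, (((b + Pi.single i 1 : Fin 3 → ℕ) j).factorial : k) =
      ∏ j ∈ Finset.univ.erase i, ((b j).factorial : k) := by
    refine Finset.prod_congr rfl fun j hj => ?_
    rw [Pi.add_apply, Pi.single_eq_of_ne (Finset.ne_of_mem_erase hj), add_zero]
  rw [h1, Pi.add_apply, Pi.single_eq_same, Nat.factorial_succ]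
  push_cast
  ring

theorem T_y_mul (M ν : ℕ) (i : Fin 3) (h : MvPowerSeries (Fin 7) k) :
    T (M + 1) ν (X (vy i) * h) = T M ν (pderiv k (vx i) h) := by
  rw [T_apply, T_apply, sum_shift M i]
  · refine Finset.sum_congr rfl fun b _ => ?_
    rw [← ex_add_vy, coeff_X_mul_add, coeff_pderiv, ex_add_vx, ex_vx, prod_factorial_add]
    ring
  · intro a ha
    rw [coeff_X_mul_zero _ _ (by rw [ex_vy, ha]), mul_zero]

theorem T_x_mul (M ν : ℕ) (i : Fin 3) (h : MvPowerSeries (Fin 7) k) :
    T (M + 1) ν (X (vx i) * h) = T M ν (pderiv k (vy i) h) := by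
  rw [T_apply, T_apply, sum_shift M i]
  · refine Finset.sum_congr rfl fun b _ => ?_
    rw [← ex_add_vx, coeff_X_mul_add, coeff_pderiv, ex_add_vy, ex_vy, prod_factorial_add]
    ring
  · intro a ha
    rw [coeff_X_mul_zero _ _ (by rw [ex_vx, ha]), mul_zero]

theorem T_z_mul (M ν : ℕ) (h : MvPowerSeries (Fin 7) k) :
    T M (ν + 1) (X 6 * h) = T M ν h := by
  rw [T_apply, T_apply]
  refine Finset.sum_congr rfl fun b _ => ?_
  rw [← ex_add_z, coeff_X_mul_add]

theorem T_z_mul_zero (M : ℕ) (h : MvPowerSeries (Fin 7) k) : T M 0 (X 6 * h) = 0 := by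
  rw [T_apply]
  refine Finset.sum_eq_zero fun b _ => ?_
  rw [coeff_X_mul_zero _ _ (ex_z _ _ _), mul_zero]

theorem T_pderiv_z (M ν : ℕ) (h : MvPowerSeries (Fin 7) k) :
    T M ν (pderiv k 6 h) = (ν + 1) * T M (ν + 1) h := by
  rw [T_apply, T_apply, Finset.mul_sum]
  refine Finset.sum_congr rfl fun b _ => ?_
  rw [coeff_pderiv, ex_add_z, ex_z]
  ring

theorem T_euler (M ν : ℕ) (i : Fin 3) (h : MvPowerSeries (Fin 7) k) :
    T M ν (X (vx i) * pderiv k (vx i) h) = ∑ a ∈ Finset.Nat.antidiagonalTuple 3 M,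
      (a i : k) * ((∏ i, ((a i).factorial : k)) * coeff (ex a a ν) h) := by
  rw [T_apply]
  refine Finset.sum_congr rfl fun a _ => ?_
  rcases Nat.eq_zero_or_pos (a i) with h0 | h0
  · rw [coeff_X_mul_zero _ _ (by rw [ex_vx, h0]), h0, mul_zero]
    simp
  · have h1 : a = (a - Pi.single i 1) + Pi.single i 1 := by
      funext j
      by_cases hj : j = i
      · subst hj
        simp only [Pi.add_apply, Pi.sub_apply, Pi.single_eq_same]
        omega
      · simp [Pi.single_eq_of_ne hj]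
    have h2 : ex a a ν = ex a (a - Pi.single i 1) ν + Finsupp.single (vx i) 1 := by
      rw [ex_add_vx, ← h1]
    conv_lhs => rw [h2]
    rw [coeff_X_mul_add, coeff_pderiv, ← h2, ex_vx, Pi.sub_apply, Pi.single_eq_same,
      Nat.cast_sub h0]
    push_cast
    ring

/-- the quadratic form `f = x_0 y_0 + x_1 y_1 + x_2 y_2` -/
noncomputable def qf (k : Type) [Field k] : MvPowerSeries (Fin 7) k :=
  X 3 * X 0 + X 4 * X 1 + X 5 * X 2

theorem qf_eq : qf k = ∑ i, X (vy i) * X (vx i) := by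
  rw [Fin.sum_univ_three, qf]
  simp only [vy, vx, Matrix.cons_val]
  ring

theorem T_qf_mul (M ν : ℕ) (h : MvPowerSeries (Fin 7) k) :
    T (M + 1) ν (qf k * h) = (M + 3) * T M ν h := by
  have h1 : qf k * h = ∑ i, X (vy i) * (X (vx i) * h) := by
    rw [qf_eq, Finset.sum_mul]
    exact Finset.sum_congr rfl fun i _ => by ring
  rw [h1, map_sum]
  simp only [T_y_mul]
  have h2 : ∀ i : Fin 3, T M ν (pderiv k (vx i) (X (vx i) * h)) =
      T M ν h + T M ν (X (vx i) * pderiv k (vx i) h) := by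
    intro i
    rw [Derivation.leibniz, smul_eq_mul, smul_eq_mul, pderiv_X_self, mul_one, map_add, add_comm]
  simp only [h2, Finset.sum_add_distrib, T_euler, Finset.sum_const, Finset.card_univ,
    Fintype.card_fin]
  rw [Finset.sum_comm]
  have h3 : ∑ a ∈ Finset.Nat.antidiagonalTuple 3 M, ∑ i : Fin 3,
      (a i : k) * ((∏ i, ((a i).factorial : k)) * coeff (ex a a ν) h) =
        (M : k) * T M ν h := by
    rw [T_apply, Finset.mul_sum]
    refine Finset.sum_congr rfl fun a ha => ?_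
    rw [Finset.Nat.mem_antidiagonalTuple] at ha
    rw [← Finset.sum_mul, ← Nat.cast_sum, ha]
  rw [h3, nsmul_eq_mul]
  push_cast
  ring

theorem T_qf_mul_zero (ν : ℕ) (h : MvPowerSeries (Fin 7) k) : T 0 ν (qf k * h) = 0 := by
  have h1 : qf k * h = ∑ i, X (vy i) * (X (vx i) * h) := by
    rw [qf_eq, Finset.sum_mul]
    exact Finset.sum_congr rfl fun i _ => by ring
  rw [h1, map_sum]
  refine Finset.sum_eq_zero fun i _ => ?_
  rw [T_apply]
  refine Finset.sum_eq_zero fun a ha => ?_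
  rw [Finset.Nat.mem_antidiagonalTuple] at ha
  rw [coeff_X_mul_zero, mul_zero]
  rw [ex_vy]
  have := Finset.sum_eq_zero_iff.1 ha i (Finset.mem_univ i)
  exact this

theorem T_z_pow (M N ν : ℕ) (h : MvPowerSeries (Fin 7) k) :
    T M (ν + N) (X 6 ^ N * h) = T M ν h := by
  induction N with
  | zero => simp
  | succ N ih =>
    rw [pow_succ', mul_assoc, ← add_assoc, T_z_mul, ih]

theorem T_qf_pow (M ν : ℕ) (h : MvPowerSeries (Fin 7) k) :
    ∃ c : k, T M ν (qf k ^ M * h) = c * T 0 ν h := by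
  induction M with
  | zero => exact ⟨1, by simp⟩
  | succ M ih =>
    obtain ⟨c, hc⟩ := ih
    refine ⟨(M + 3) * c, ?_⟩
    rw [pow_succ', mul_assoc, T_qf_mul, hc, mul_assoc]

theorem T_qf_pow_one [CharZero k] (M : ℕ) : T M 0 (qf k ^ M) ≠ 0 := by
  induction M with
  | zero =>
    rw [pow_zero, T_apply, Finset.sum_eq_single (fun _ => 0)]
    · have : ex (fun _ => 0) (fun _ => 0) 0 = 0 := by
        ext j
        fin_cases j <;> rfl
      rw [this]
      simp
    · intro a ha h
      rw [Finset.Nat.mem_antidiagonalTuple] at ha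
      exact absurd (funext fun i => Finset.sum_eq_zero_iff.1 ha i (Finset.mem_univ i)) h
    · intro h
      exact absurd (by rw [Finset.Nat.mem_antidiagonalTuple]; simp) h
  | succ M ih =>
    rw [pow_succ', T_qf_mul]
    refine mul_ne_zero ?_ ih
    have : ((M : k) + 3) = ((M + 3 : ℕ) : k) := by push_cast; ring
    rw [this]
    exact Nat.cast_ne_zero.2 (by omega)

end Q54.HD
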