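import Mathlib

/-!
# Signs of exterior and alternating Cech differentials
-/

set_option autoImplicit false

namespace Q54.HD

/-- The sign `(-1) ^ #{j ∈ S | j < i}`. -/
def sgn {N : ℕ} (i : Fin N) (S : Finset (Fin N)) : ℤ := (-1) ^ (S.filter (· < i)).card

theorem sgn_aux {N : ℕ} {i j : Fin N} {S : Finset (Fin N)} (hi : i ∈ S) (hij : i < j) :
    sgn i S * sgn j (S.erase i) = -(sgn j S * sgn i (S.erase j)) := by
  have h1 : (S.erase j).filter (· < i) = S.filter (· < i) := by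
    ext a
    simp only [Finset.mem_filter, Finset.mem_erase]
    constructor
    · rintro ⟨⟨-, h⟩, h'⟩
      exact ⟨h, h'⟩
    · rintro ⟨h, h'⟩
      exact ⟨⟨(h'.trans hij).ne, h⟩, h'⟩
  have h2 : (S.filter (· < j)).card = ((S.erase i).filter (· < j)).card + 1 := by
    rw [Finset.filter_erase, Finset.card_erase_add_one]
    exact Finset.mem_filter.2 ⟨hi, hij⟩
  rw [sgn, sgn, sgn, sgn, h1, h2, pow_succ]
  ring

theorem sgn_swap {N : ℕ} {i j : Fin N} {S : Finset (Fin N)} (hi : i ∈ S) (hj : j ∈ S)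
    (hij : i ≠ j) : sgn i S * sgn j (S.erase i) = -(sgn j S * sgn i (S.erase j)) := by
  rcases lt_or_gt_of_ne hij with h | h
  · exact sgn_aux hi h
  · rw [sgn_aux hj h, neg_neg]

/-- The double sum of a symmetric function with the alternating signs is zero. -/
theorem sum_sgn_eq_zero {N : ℕ} {M : Type} [Ring M] (S : Finset (Fin N))
    (G : Fin N → Fin N → M) (hG : ∀ i j, G i j = G j i) :
    ∑ i ∈ S, ∑ j ∈ S.erase i, (sgn i S : M) * ((sgn j (S.erase i) : M) * G i j) = 0 := by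
  rw [Finset.sum_sigma']
  refine Finset.sum_involution (fun p _ => (⟨p.2, p.1⟩ : (_ : Fin N) × Fin N)) ?_ ?_ ?_ ?_
  · rintro ⟨i, j⟩ hp
    simp only [Finset.mem_sigma, Finset.mem_erase] at hp
    have h := congrArg (Int.cast : ℤ → M) (sgn_swap hp.1 hp.2.2 (Ne.symm hp.2.1))
    push_cast at h
    simp only
    rw [← mul_assoc, h, hG j i, neg_mul, mul_assoc, neg_add_cancel]
  · rintro ⟨i, j⟩ hp _ h
    simp only [Finset.mem_sigma, Finset.mem_erase] at hp
    simp only [Sigma.mk.injEq] at h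
    exact hp.2.1 h.1
  · rintro ⟨i, j⟩ hp
    simp only [Finset.mem_sigma, Finset.mem_erase] at hp ⊢
    exact ⟨hp.2.2, Ne.symm hp.2.1, hp.1⟩
  · rintro ⟨i, j⟩ _
    rfl

end Q54.HD
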