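import Pool.Agent.Q54.HD.Alpha

/-!
# The differential of the cochain
-/

set_option autoImplicit false
set_option linter.unusedSectionVars false
set_option linter.unusedTactic false
set_option linter.unreachableTactic false
set_option linter.unusedSimpArgs false

open MvPowerSeries

namespace Q54.HD

section

variable {k : Type} [Field k] {K : Type} [Field K] [Algebra (MvPowerSeries (Fin 7) k) K]
  [IsFractionRing (MvPowerSeries (Fin 7) k) K]

theorem ddx_X (i j : Fin 7) : ddxD k K i (ia k K (X j)) = if j = i then 1 else 0 := by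
  rw [ddxD_algebraMap]
  split_ifs with h
  · subst h
    rw [pderiv_X_self, map_one]
  · rw [pderiv_X_of_ne h, map_zero]

theorem ddx_f0 : ddxD k K (0 : Fin 7) (ia k K (qf k)) = ia k K (X 3) := by
  rw [ddxD_algebraMap]
  exact congrArg _ (pderiv_qf_vy 0)

theorem ddx_f1 : ddxD k K (1 : Fin 7) (ia k K (qf k)) = ia k K (X 4) := by
  rw [ddxD_algebraMap]
  exact congrArg _ (pderiv_qf_vy 1)

theorem ddx_f2 : ddxD k K (2 : Fin 7) (ia k K (qf k)) = ia k K (X 5) := by
  rw [ddxD_algebraMap]
  exact congrArg _ (pderiv_qf_vy 2)

theorem f_eq : ia k K (qf k) = ia k K (X 3) * ia k K (X 0) + ia k K (X 4) * ia k K (X 1) +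
    ia k K (X 5) * ia k K (X 2) := by
  rw [← map_mul, ← map_mul, ← map_mul, ← map_add, ← map_add]
  rfl

theorem tot_alpha_univ : tot (fun j : Fin 7 => ddxD k K j) (alpha k K) Finset.univ {3, 4, 5, 6} = 0 := by
  have hf := f_ne_zero (k := k) (K := K)
  have hz := z_ne_zero (k := k) (K := K)
  have h3 := ia_ne_zero (K := K) (X_ne_zero' (k := k) 3)
  have h4 := ia_ne_zero (K := K) (X_ne_zero' (k := k) 4)
  have h5 := ia_ne_zero (K := K) (X_ne_zero' (k := k) 5)
  have hfe := f_eq (k := k) (K := K)
  rw [tot_apply, cech_apply, deRham_apply, sum4, sum7]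
  simp (decide := true) only [if_true, if_false, sgn_eq_ite, alpha, al3, map_zero, mul_zero,
    add_zero, zero_add, map_mul, map_one]
  generalize ia k K (qf k) = f at *
  generalize ia k K (X 6) = z at *
  generalize ia k K (X 3) = x0 at *
  generalize ia k K (X 4) = x1 at *
  generalize ia k K (X 5) = x2 at *
  generalize ia k K (X 0) = y0 at *
  generalize ia k K (X 1) = y1 at *
  generalize ia k K (X 2) = y2 at *
  push_cast
  field_simp
  linear_combination hfe

theorem tot_alpha_123_0 : tot (fun j : Fin 7 => ddxD k K j) (alpha k K) {1, 2, 3} {0, 3, 4, 5, 6} = 0 := by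
  have hf := f_ne_zero (k := k) (K := K)
  have hz := z_ne_zero (k := k) (K := K)
  have h3 := ia_ne_zero (K := K) (X_ne_zero' (k := k) 3)
  have h4 := ia_ne_zero (K := K) (X_ne_zero' (k := k) 4)
  have h5 := ia_ne_zero (K := K) (X_ne_zero' (k := k) 5)
  have hfe := f_eq (k := k) (K := K)
  rw [tot_apply, cech_apply, deRham_apply, sum4, sum7]
  simp (decide := true) only [if_true, if_false, sgn_eq_ite, alpha, al3, be0, be1, be2, map_zero,
    mul_zero, add_zero, zero_add, map_mul, map_one, map_neg, map_pow, Derivation.leibniz_div,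
    Derivation.leibniz, Derivation.leibniz_pow, smul_eq_mul, nsmul_eq_mul, ddx_X, ddx_f0, ddx_f1,
    ddx_f2, Finset.card_insert_of_notMem, Finset.card_singleton, Finset.mem_insert,
    Finset.mem_singleton, Derivation.map_one_eq_zero]
  generalize ia k K (qf k) = f at *
  generalize ia k K (X 6) = z at *
  generalize ia k K (X 3) = x0 at *
  generalize ia k K (X 4) = x1 at *
  generalize ia k K (X 5) = x2 at *
  generalize ia k K (X 0) = y0 at *
  generalize ia k K (X 1) = y1 at *
  generalize ia k K (X 2) = y2 at *
  push_cast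
  field_simp
  first | ring1 | linear_combination hfe | linear_combination -hfe | linear_combination 2 * hfe

theorem tot_alpha_123_1 : tot (fun j : Fin 7 => ddxD k K j) (alpha k K) {1, 2, 3} {1, 3, 4, 5, 6} = 0 := by
  have hf := f_ne_zero (k := k) (K := K)
  have hz := z_ne_zero (k := k) (K := K)
  have h3 := ia_ne_zero (K := K) (X_ne_zero' (k := k) 3)
  have h4 := ia_ne_zero (K := K) (X_ne_zero' (k := k) 4)
  have h5 := ia_ne_zero (K := K) (X_ne_zero' (k := k) 5)
  have hfe := f_eq (k := k) (K := K)
  rw [tot_apply, cech_apply, deRham_apply, sum4, sum7]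
  simp (decide := true) only [if_true, if_false, sgn_eq_ite, alpha, al3, be0, be1, be2, map_zero,
    mul_zero, add_zero, zero_add, map_mul, map_one, map_neg, map_pow, Derivation.leibniz_div,
    Derivation.leibniz, Derivation.leibniz_pow, smul_eq_mul, nsmul_eq_mul, ddx_X, ddx_f0, ddx_f1,
    ddx_f2, Finset.card_insert_of_notMem, Finset.card_singleton, Finset.mem_insert,
    Finset.mem_singleton, Derivation.map_one_eq_zero]
  generalize ia k K (qf k) = f at *
  generalize ia k K (X 6) = z at *
  generalize ia k K (X 3) = x0 at *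
  generalize ia k K (X 4) = x1 at *
  generalize ia k K (X 5) = x2 at *
  generalize ia k K (X 0) = y0 at *
  generalize ia k K (X 1) = y1 at *
  generalize ia k K (X 2) = y2 at *
  push_cast
  field_simp
  first | ring1 | linear_combination hfe | linear_combination -hfe | linear_combination 2 * hfe

theorem tot_alpha_123_2 : tot (fun j : Fin 7 => ddxD k K j) (alpha k K) {1, 2, 3} {2, 3, 4, 5, 6} = 0 := by
  have hf := f_ne_zero (k := k) (K := K)
  have hz := z_ne_zero (k := k) (K := K)
  have h3 := ia_ne_zero (K := K) (X_ne_zero' (k := k) 3)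
  have h4 := ia_ne_zero (K := K) (X_ne_zero' (k := k) 4)
  have h5 := ia_ne_zero (K := K) (X_ne_zero' (k := k) 5)
  have hfe := f_eq (k := k) (K := K)
  rw [tot_apply, cech_apply, deRham_apply, sum4, sum7]
  simp (decide := true) only [if_true, if_false, sgn_eq_ite, alpha, al3, be0, be1, be2, map_zero,
    mul_zero, add_zero, zero_add, map_mul, map_one, map_neg, map_pow, Derivation.leibniz_div,
    Derivation.leibniz, Derivation.leibniz_pow, smul_eq_mul, nsmul_eq_mul, ddx_X, ddx_f0, ddx_f1,
    ddx_f2, Finset.card_insert_of_notMem, Finset.card_singleton, Finset.mem_insert,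
    Finset.mem_singleton, Derivation.map_one_eq_zero]
  generalize ia k K (qf k) = f at *
  generalize ia k K (X 6) = z at *
  generalize ia k K (X 3) = x0 at *
  generalize ia k K (X 4) = x1 at *
  generalize ia k K (X 5) = x2 at *
  generalize ia k K (X 0) = y0 at *
  generalize ia k K (X 1) = y1 at *
  generalize ia k K (X 2) = y2 at *
  push_cast
  field_simp
  first | ring1 | linear_combination hfe | linear_combination -hfe | linear_combination 2 * hfe

theorem tot_alpha_023_0 : tot (fun j : Fin 7 => ddxD k K j) (alpha k K) {0, 2, 3} {0, 3, 4, 5, 6} = 0 := by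
  have hf := f_ne_zero (k := k) (K := K)
  have hz := z_ne_zero (k := k) (K := K)
  have h3 := ia_ne_zero (K := K) (X_ne_zero' (k := k) 3)
  have h4 := ia_ne_zero (K := K) (X_ne_zero' (k := k) 4)
  have h5 := ia_ne_zero (K := K) (X_ne_zero' (k := k) 5)
  have hfe := f_eq (k := k) (K := K)
  rw [tot_apply, cech_apply, deRham_apply, sum4, sum7]
  simp (decide := true) only [if_true, if_false, sgn_eq_ite, alpha, al3, be0, be1, be2, map_zero,
    mul_zero, add_zero, zero_add, map_mul, map_one, map_neg, map_pow, Derivation.leibniz_div,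
    Derivation.leibniz, Derivation.leibniz_pow, smul_eq_mul, nsmul_eq_mul, ddx_X, ddx_f0, ddx_f1,
    ddx_f2, Finset.card_insert_of_notMem, Finset.card_singleton, Finset.mem_insert,
    Finset.mem_singleton, Derivation.map_one_eq_zero]
  generalize ia k K (qf k) = f at *
  generalize ia k K (X 6) = z at *
  generalize ia k K (X 3) = x0 at *
  generalize ia k K (X 4) = x1 at *
  generalize ia k K (X 5) = x2 at *
  generalize ia k K (X 0) = y0 at *
  generalize ia k K (X 1) = y1 at *
  generalize ia k K (X 2) = y2 at *
  push_cast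
  field_simp
  first | ring1 | linear_combination hfe | linear_combination -hfe | linear_combination 2 * hfe

theorem tot_alpha_023_1 : tot (fun j : Fin 7 => ddxD k K j) (alpha k K) {0, 2, 3} {1, 3, 4, 5, 6} = 0 := by
  have hf := f_ne_zero (k := k) (K := K)
  have hz := z_ne_zero (k := k) (K := K)
  have h3 := ia_ne_zero (K := K) (X_ne_zero' (k := k) 3)
  have h4 := ia_ne_zero (K := K) (X_ne_zero' (k := k) 4)
  have h5 := ia_ne_zero (K := K) (X_ne_zero' (k := k) 5)
  have hfe := f_eq (k := k) (K := K)
  rw [tot_apply, cech_apply, deRham_apply, sum4, sum7]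
  simp (decide := true) only [if_true, if_false, sgn_eq_ite, alpha, al3, be0, be1, be2, map_zero,
    mul_zero, add_zero, zero_add, map_mul, map_one, map_neg, map_pow, Derivation.leibniz_div,
    Derivation.leibniz, Derivation.leibniz_pow, smul_eq_mul, nsmul_eq_mul, ddx_X, ddx_f0, ddx_f1,
    ddx_f2, Finset.card_insert_of_notMem, Finset.card_singleton, Finset.mem_insert,
    Finset.mem_singleton, Derivation.map_one_eq_zero]
  generalize ia k K (qf k) = f at *
  generalize ia k K (X 6) = z at *
  generalize ia k K (X 3) = x0 at *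
  generalize ia k K (X 4) = x1 at *
  generalize ia k K (X 5) = x2 at *
  generalize ia k K (X 0) = y0 at *
  generalize ia k K (X 1) = y1 at *
  generalize ia k K (X 2) = y2 at *
  push_cast
  field_simp
  first | ring1 | linear_combination hfe | linear_combination -hfe | linear_combination 2 * hfe

theorem tot_alpha_023_2 : tot (fun j : Fin 7 => ddxD k K j) (alpha k K) {0, 2, 3} {2, 3, 4, 5, 6} = 0 := by
  have hf := f_ne_zero (k := k) (K := K)
  have hz := z_ne_zero (k := k) (K := K)
  have h3 := ia_ne_zero (K := K) (X_ne_zero' (k := k) 3)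
  have h4 := ia_ne_zero (K := K) (X_ne_zero' (k := k) 4)
  have h5 := ia_ne_zero (K := K) (X_ne_zero' (k := k) 5)
  have hfe := f_eq (k := k) (K := K)
  rw [tot_apply, cech_apply, deRham_apply, sum4, sum7]
  simp (decide := true) only [if_true, if_false, sgn_eq_ite, alpha, al3, be0, be1, be2, map_zero,
    mul_zero, add_zero, zero_add, map_mul, map_one, map_neg, map_pow, Derivation.leibniz_div,
    Derivation.leibniz, Derivation.leibniz_pow, smul_eq_mul, nsmul_eq_mul, ddx_X, ddx_f0, ddx_f1,
    ddx_f2, Finset.card_insert_of_notMem, Finset.card_singleton, Finset.mem_insert,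
    Finset.mem_singleton, Derivation.map_one_eq_zero]
  generalize ia k K (qf k) = f at *
  generalize ia k K (X 6) = z at *
  generalize ia k K (X 3) = x0 at *
  generalize ia k K (X 4) = x1 at *
  generalize ia k K (X 5) = x2 at *
  generalize ia k K (X 0) = y0 at *
  generalize ia k K (X 1) = y1 at *
  generalize ia k K (X 2) = y2 at *
  push_cast
  field_simp
  first | ring1 | linear_combination hfe | linear_combination -hfe | linear_combination 2 * hfe

theorem tot_alpha_013_0 : tot (fun j : Fin 7 => ddxD k K j) (alpha k K) {0, 1, 3} {0, 3, 4, 5, 6} = 0 := by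
  have hf := f_ne_zero (k := k) (K := K)
  have hz := z_ne_zero (k := k) (K := K)
  have h3 := ia_ne_zero (K := K) (X_ne_zero' (k := k) 3)
  have h4 := ia_ne_zero (K := K) (X_ne_zero' (k := k) 4)
  have h5 := ia_ne_zero (K := K) (X_ne_zero' (k := k) 5)
  have hfe := f_eq (k := k) (K := K)
  rw [tot_apply, cech_apply, deRham_apply, sum4, sum7]
  simp (decide := true) only [if_true, if_false, sgn_eq_ite, alpha, al3, be0, be1, be2, map_zero,
    mul_zero, add_zero, zero_add, map_mul, map_one, map_neg, map_pow, Derivation.leibniz_div,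
    Derivation.leibniz, Derivation.leibniz_pow, smul_eq_mul, nsmul_eq_mul, ddx_X, ddx_f0, ddx_f1,
    ddx_f2, Finset.card_insert_of_notMem, Finset.card_singleton, Finset.mem_insert,
    Finset.mem_singleton, Derivation.map_one_eq_zero]
  generalize ia k K (qf k) = f at *
  generalize ia k K (X 6) = z at *
  generalize ia k K (X 3) = x0 at *
  generalize ia k K (X 4) = x1 at *
  generalize ia k K (X 5) = x2 at *
  generalize ia k K (X 0) = y0 at *
  generalize ia k K (X 1) = y1 at *
  generalize ia k K (X 2) = y2 at *
  push_cast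
  field_simp
  first | ring1 | linear_combination hfe | linear_combination -hfe | linear_combination 2 * hfe

theorem tot_alpha_013_1 : tot (fun j : Fin 7 => ddxD k K j) (alpha k K) {0, 1, 3} {1, 3, 4, 5, 6} = 0 := by
  have hf := f_ne_zero (k := k) (K := K)
  have hz := z_ne_zero (k := k) (K := K)
  have h3 := ia_ne_zero (K := K) (X_ne_zero' (k := k) 3)
  have h4 := ia_ne_zero (K := K) (X_ne_zero' (k := k) 4)
  have h5 := ia_ne_zero (K := K) (X_ne_zero' (k := k) 5)
  have hfe := f_eq (k := k) (K := K)
  rw [tot_apply, cech_apply, deRham_apply, sum4, sum7]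
  simp (decide := true) only [if_true, if_false, sgn_eq_ite, alpha, al3, be0, be1, be2, map_zero,
    mul_zero, add_zero, zero_add, map_mul, map_one, map_neg, map_pow, Derivation.leibniz_div,
    Derivation.leibniz, Derivation.leibniz_pow, smul_eq_mul, nsmul_eq_mul, ddx_X, ddx_f0, ddx_f1,
    ddx_f2, Finset.card_insert_of_notMem, Finset.card_singleton, Finset.mem_insert,
    Finset.mem_singleton, Derivation.map_one_eq_zero]
  generalize ia k K (qf k) = f at *
  generalize ia k K (X 6) = z at *
  generalize ia k K (X 3) = x0 at *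
  generalize ia k K (X 4) = x1 at *
  generalize ia k K (X 5) = x2 at *
  generalize ia k K (X 0) = y0 at *
  generalize ia k K (X 1) = y1 at *
  generalize ia k K (X 2) = y2 at *
  push_cast
  field_simp
  first | ring1 | linear_combination hfe | linear_combination -hfe | linear_combination 2 * hfe

theorem tot_alpha_013_2 : tot (fun j : Fin 7 => ddxD k K j) (alpha k K) {0, 1, 3} {2, 3, 4, 5, 6} = 0 := by
  have hf := f_ne_zero (k := k) (K := K)
  have hz := z_ne_zero (k := k) (K := K)
  have h3 := ia_ne_zero (K := K) (X_ne_zero' (k := k) 3)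
  have h4 := ia_ne_zero (K := K) (X_ne_zero' (k := k) 4)
  have h5 := ia_ne_zero (K := K) (X_ne_zero' (k := k) 5)
  have hfe := f_eq (k := k) (K := K)
  rw [tot_apply, cech_apply, deRham_apply, sum4, sum7]
  simp (decide := true) only [if_true, if_false, sgn_eq_ite, alpha, al3, be0, be1, be2, map_zero,
    mul_zero, add_zero, zero_add, map_mul, map_one, map_neg, map_pow, Derivation.leibniz_div,
    Derivation.leibniz, Derivation.leibniz_pow, smul_eq_mul, nsmul_eq_mul, ddx_X, ddx_f0, ddx_f1,
    ddx_f2, Finset.card_insert_of_notMem, Finset.card_singleton, Finset.mem_insert,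
    Finset.mem_singleton, Derivation.map_one_eq_zero]
  generalize ia k K (qf k) = f at *
  generalize ia k K (X 6) = z at *
  generalize ia k K (X 3) = x0 at *
  generalize ia k K (X 4) = x1 at *
  generalize ia k K (X 5) = x2 at *
  generalize ia k K (X 0) = y0 at *
  generalize ia k K (X 1) = y1 at *
  generalize ia k K (X 2) = y2 at *
  push_cast
  field_simp
  first | ring1 | linear_combination hfe | linear_combination -hfe | linear_combination 2 * hfe

theorem tot_alpha_012_0 : tot (fun j : Fin 7 => ddxD k K j) (alpha k K) {0, 1, 2} {0, 3, 4, 5, 6} = 0 := by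
  have hf := f_ne_zero (k := k) (K := K)
  have hz := z_ne_zero (k := k) (K := K)
  have h3 := ia_ne_zero (K := K) (X_ne_zero' (k := k) 3)
  have h4 := ia_ne_zero (K := K) (X_ne_zero' (k := k) 4)
  have h5 := ia_ne_zero (K := K) (X_ne_zero' (k := k) 5)
  have hfe := f_eq (k := k) (K := K)
  rw [tot_apply, cech_apply, deRham_apply, sum4, sum7]
  simp (decide := true) only [if_true, if_false, sgn_eq_ite, alpha, al3, be0, be1, be2, map_zero,
    mul_zero, add_zero, zero_add, map_mul, map_one, map_neg, map_pow, Derivation.leibniz_div,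
    Derivation.leibniz, Derivation.leibniz_pow, smul_eq_mul, nsmul_eq_mul, ddx_X, ddx_f0, ddx_f1,
    ddx_f2, Finset.card_insert_of_notMem, Finset.card_singleton, Finset.mem_insert,
    Finset.mem_singleton, Derivation.map_one_eq_zero]
  generalize ia k K (qf k) = f at *
  generalize ia k K (X 6) = z at *
  generalize ia k K (X 3) = x0 at *
  generalize ia k K (X 4) = x1 at *
  generalize ia k K (X 5) = x2 at *
  generalize ia k K (X 0) = y0 at *
  generalize ia k K (X 1) = y1 at *
  generalize ia k K (X 2) = y2 at *
  push_cast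
  field_simp
  first | ring1 | linear_combination hfe | linear_combination -hfe | linear_combination 2 * hfe

theorem tot_alpha_012_1 : tot (fun j : Fin 7 => ddxD k K j) (alpha k K) {0, 1, 2} {1, 3, 4, 5, 6} = 0 := by
  have hf := f_ne_zero (k := k) (K := K)
  have hz := z_ne_zero (k := k) (K := K)
  have h3 := ia_ne_zero (K := K) (X_ne_zero' (k := k) 3)
  have h4 := ia_ne_zero (K := K) (X_ne_zero' (k := k) 4)
  have h5 := ia_ne_zero (K := K) (X_ne_zero' (k := k) 5)
  have hfe := f_eq (k := k) (K := K)
  rw [tot_apply, cech_apply, deRham_apply, sum4, sum7]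
  simp (decide := true) only [if_true, if_false, sgn_eq_ite, alpha, al3, be0, be1, be2, map_zero,
    mul_zero, add_zero, zero_add, map_mul, map_one, map_neg, map_pow, Derivation.leibniz_div,
    Derivation.leibniz, Derivation.leibniz_pow, smul_eq_mul, nsmul_eq_mul, ddx_X, ddx_f0, ddx_f1,
    ddx_f2, Finset.card_insert_of_notMem, Finset.card_singleton, Finset.mem_insert,
    Finset.mem_singleton, Derivation.map_one_eq_zero]
  generalize ia k K (qf k) = f at *
  generalize ia k K (X 6) = z at *
  generalize ia k K (X 3) = x0 at *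
  generalize ia k K (X 4) = x1 at *
  generalize ia k K (X 5) = x2 at *
  generalize ia k K (X 0) = y0 at *
  generalize ia k K (X 1) = y1 at *
  generalize ia k K (X 2) = y2 at *
  push_cast
  field_simp
  first | ring1 | linear_combination hfe | linear_combination -hfe | linear_combination 2 * hfe

theorem tot_alpha_012_2 : tot (fun j : Fin 7 => ddxD k K j) (alpha k K) {0, 1, 2} {2, 3, 4, 5, 6} = 0 := by
  have hf := f_ne_zero (k := k) (K := K)
  have hz := z_ne_zero (k := k) (K := K)
  have h3 := ia_ne_zero (K := K) (X_ne_zero' (k := k) 3)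
  have h4 := ia_ne_zero (K := K) (X_ne_zero' (k := k) 4)
  have h5 := ia_ne_zero (K := K) (X_ne_zero' (k := k) 5)
  have hfe := f_eq (k := k) (K := K)
  rw [tot_apply, cech_apply, deRham_apply, sum4, sum7]
  simp (decide := true) only [if_true, if_false, sgn_eq_ite, alpha, al3, be0, be1, be2, map_zero,
    mul_zero, add_zero, zero_add, map_mul, map_one, map_neg, map_pow, Derivation.leibniz_div,
    Derivation.leibniz, Derivation.leibniz_pow, smul_eq_mul, nsmul_eq_mul, ddx_X, ddx_f0, ddx_f1,
    ddx_f2, Finset.card_insert_of_notMem, Finset.card_singleton, Finset.mem_insert,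
    Finset.mem_singleton, Derivation.map_one_eq_zero]
  generalize ia k K (qf k) = f at *
  generalize ia k K (X 6) = z at *
  generalize ia k K (X 3) = x0 at *
  generalize ia k K (X 4) = x1 at *
  generalize ia k K (X 5) = x2 at *
  generalize ia k K (X 0) = y0 at *
  generalize ia k K (X 1) = y1 at *
  generalize ia k K (X 2) = y2 at *
  push_cast
  field_simp
  first | ring1 | linear_combination hfe | linear_combination -hfe | linear_combination 2 * hfe

theorem tot_alpha_01_0 : tot (fun j : Fin 7 => ddxD k K j) (alpha k K) {0, 1} (Finset.univ.erase 0) =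
    2 * ia k K (X 0) / (ia k K (qf k) ^ 3 * ia k K (X 6)) := by
  have hf := f_ne_zero (k := k) (K := K)
  have hz := z_ne_zero (k := k) (K := K)
  have h3 := ia_ne_zero (K := K) (X_ne_zero' (k := k) 3)
  have hfe := f_eq (k := k) (K := K)
  rw [tot_apply, cech_apply, deRham_apply, sum4, sum7]
  simp (decide := true) only [if_true, if_false, sgn_eq_ite, alpha, al3, be0, be1, be2, map_zero,
    mul_zero, add_zero, zero_add, map_mul, map_one, map_neg, map_pow, Derivation.leibniz_div,
    Derivation.leibniz, Derivation.leibniz_pow, smul_eq_mul, nsmul_eq_mul, ddx_X, ddx_f0, ddx_f1,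
    ddx_f2, Finset.card_insert_of_notMem, Finset.card_singleton, Finset.mem_insert,
    Finset.mem_singleton, Derivation.map_one_eq_zero]
  generalize ia k K (qf k) = f at *
  generalize ia k K (X 6) = z at *
  generalize ia k K (X 3) = x0 at *
  generalize ia k K (X 4) = x1 at *
  generalize ia k K (X 5) = x2 at *
  generalize ia k K (X 0) = y0 at *
  generalize ia k K (X 1) = y1 at *
  generalize ia k K (X 2) = y2 at *
  push_cast
  field_simp
  first | ring1 | linear_combination hfe | linear_combination -hfe | linear_combination 2 * hfe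

theorem tot_alpha_01_1 : tot (fun j : Fin 7 => ddxD k K j) (alpha k K) {0, 1} (Finset.univ.erase 1) =
    -(2 * ia k K (X 1) / (ia k K (qf k) ^ 3 * ia k K (X 6))) := by
  have hf := f_ne_zero (k := k) (K := K)
  have hz := z_ne_zero (k := k) (K := K)
  have h3 := ia_ne_zero (K := K) (X_ne_zero' (k := k) 3)
  have hfe := f_eq (k := k) (K := K)
  rw [tot_apply, cech_apply, deRham_apply, sum4, sum7]
  simp (decide := true) only [if_true, if_false, sgn_eq_ite, alpha, al3, be0, be1, be2, map_zero,
    mul_zero, add_zero, zero_add, map_mul, map_one, map_neg, map_pow, Derivation.leibniz_div,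
    Derivation.leibniz, Derivation.leibniz_pow, smul_eq_mul, nsmul_eq_mul, ddx_X, ddx_f0, ddx_f1,
    ddx_f2, Finset.card_insert_of_notMem, Finset.card_singleton, Finset.mem_insert,
    Finset.mem_singleton, Derivation.map_one_eq_zero]
  generalize ia k K (qf k) = f at *
  generalize ia k K (X 6) = z at *
  generalize ia k K (X 3) = x0 at *
  generalize ia k K (X 4) = x1 at *
  generalize ia k K (X 5) = x2 at *
  generalize ia k K (X 0) = y0 at *
  generalize ia k K (X 1) = y1 at *
  generalize ia k K (X 2) = y2 at *
  push_cast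
  field_simp
  first | ring1 | linear_combination hfe | linear_combination -hfe | linear_combination 2 * hfe

theorem tot_alpha_01_2 : tot (fun j : Fin 7 => ddxD k K j) (alpha k K) {0, 1} (Finset.univ.erase 2) =
    2 * ia k K (X 2) / (ia k K (qf k) ^ 3 * ia k K (X 6)) := by
  have hf := f_ne_zero (k := k) (K := K)
  have hz := z_ne_zero (k := k) (K := K)
  have h3 := ia_ne_zero (K := K) (X_ne_zero' (k := k) 3)
  have hfe := f_eq (k := k) (K := K)
  rw [tot_apply, cech_apply, deRham_apply, sum4, sum7]
  simp (decide := true) only [if_true, if_false, sgn_eq_ite, alpha, al3, be0, be1, be2, map_zero,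
    mul_zero, add_zero, zero_add, map_mul, map_one, map_neg, map_pow, Derivation.leibniz_div,
    Derivation.leibniz, Derivation.leibniz_pow, smul_eq_mul, nsmul_eq_mul, ddx_X, ddx_f0, ddx_f1,
    ddx_f2, Finset.card_insert_of_notMem, Finset.card_singleton, Finset.mem_insert,
    Finset.mem_singleton, Derivation.map_one_eq_zero]
  generalize ia k K (qf k) = f at *
  generalize ia k K (X 6) = z at *
  generalize ia k K (X 3) = x0 at *
  generalize ia k K (X 4) = x1 at *
  generalize ia k K (X 5) = x2 at *
  generalize ia k K (X 0) = y0 at *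
  generalize ia k K (X 1) = y1 at *
  generalize ia k K (X 2) = y2 at *
  push_cast
  field_simp
  first | ring1 | linear_combination hfe | linear_combination -hfe | linear_combination 2 * hfe

end

end Q54.HD
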